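import Mathlib

/-!
# Permutations acting blockwise, and a reducing move for even permutations
-/

open Finset Equiv Equiv.Perm

namespace Pool.Agent.H18.SN

/-- the permutation of `I × β` acting by `g i` on the block `i` -/
def blkHom (I β : Type*) : (I → Perm β) →* Perm (I × β) where
  toFun g := Equiv.prodCongrRight g
  map_one' := by
    ext x <;> rfl
  map_mul' g h := by
    ext x <;> rfl

@[simp] theorem blkHom_apply {I β : Type*} (g : I → Perm β) (i : I) (b : β) :
    blkHom I β g (i, b) = (i, g i b) := rfl

theorem blkHom_injective (I β : Type*) : Function.Injective (blkHom I β) := by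
  intro g h hgh
  funext i
  ext b
  have := congrArg (fun σ : Perm (I × β) => (σ (i, b)).2) hgh
  simpa using this

theorem cycleType_single {I β : Type*} [Fintype I] [DecidableEq I] [Fintype β] [DecidableEq β]
    (i : I) (σ : Perm β) : (blkHom I β (Pi.mulSingle i σ)).cycleType = σ.cycleType := by
  let f : β ≃ {x : I × β // x.1 = i} :=
    { toFun := fun b => ⟨(i, b), rfl⟩
      invFun := fun x => x.1.2
      left_inv := fun b => rfl
      right_inv := by
        rintro ⟨⟨j, b⟩, h⟩
        have h' : j = i := h
        subst h'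
        rfl }
  rw [← cycleType_extendDomain f (g := σ)]
  congr 1
  ext1 ⟨j, b⟩
  by_cases hj : j = i
  · subst hj
    have h1 := extendDomain_apply_image σ f b
    have h2 : ((f b : {x : I × β // x.1 = j}) : I × β) = (j, b) := rfl
    have h3 : ((f (σ b) : {x : I × β // x.1 = j}) : I × β) = (j, σ b) := rfl
    rw [h2, h3] at h1
    rw [h1, blkHom_apply, Pi.mulSingle_eq_same]
  · rw [extendDomain_apply_not_subtype σ f (b := (j, b)) hj, blkHom_apply,
      Pi.mulSingle_eq_of_ne hj]
    rfl

theorem cycleType_blkHom {I β : Type*} [Fintype I] [DecidableEq I] [Fintype β] [DecidableEq β]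
    (g : I → Perm β) : (blkHom I β g).cycleType = ∑ i, (g i).cycleType := by
  have key : ∀ S : Finset I, (blkHom I β (fun i => if i ∈ S then g i else 1)).cycleType =
      ∑ i ∈ S, (g i).cycleType := by
    intro S
    induction S using Finset.induction_on with
    | empty =>
      have : (fun i => if i ∈ (∅ : Finset I) then g i else 1) = 1 := by
        funext i
        simp
      rw [this, map_one]
      simp
    | insert a S ha ih =>
      have h1 : (fun i => if i ∈ insert a S then g i else 1) =
          Pi.mulSingle a (g a) * (fun i => if i ∈ S then g i else 1) := by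
        funext i
        by_cases hi : i = a
        · subst hi
          simp [ha]
        · simp [hi]
      have h2 : Disjoint (blkHom I β (Pi.mulSingle a (g a)))
          (blkHom I β (fun i => if i ∈ S then g i else 1)) := by
        rintro ⟨i, b⟩
        by_cases hi : i = a
        · subst hi
          right
          simp [ha]
        · left
          simp [hi]
      rw [h1, map_mul, h2.cycleType_mul, ih, cycleType_single, Finset.sum_insert ha]
  have := key univ
  simpa using this

theorem sign_blkHom {I β : Type*} [Fintype I] [DecidableEq I] [Fintype β] [DecidableEq β]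
    (g : I → Perm β) : sign (blkHom I β g) = ∏ i, sign (g i) := sign_prodCongrRight g

/-- the same on the image of an embedding -/
noncomputable def blk {I β α : Type*} (ι : I × β ↪ α) : (I → Perm β) →* Perm α :=
  (viaEmbeddingHom ι).comp (blkHom I β)

theorem blk_injective {I β α : Type*} (ι : I × β ↪ α) : Function.Injective (blk ι) :=
  (viaEmbeddingHom_injective ι).comp (blkHom_injective I β)

@[simp] theorem blk_apply {I β α : Type*} (ι : I × β ↪ α) (g : I → Perm β) (i : I) (b : β) :
    blk ι g (ι (i, b)) = ι (i, g i b) := by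
  change viaEmbedding _ ι _ = _
  rw [viaEmbedding_apply]
  rfl

theorem blk_notMem {I β α : Type*} (ι : I × β ↪ α) (g : I → Perm β) (x : α)
    (hx : x ∉ Set.range ι) : blk ι g x = x :=
  viaEmbedding_apply_of_notMem _ ι x hx

theorem cycleType_viaEmbedding {α β : Type*} [Fintype α] [DecidableEq α] [Fintype β]
    [DecidableEq β] (e : Perm α) (ι : α ↪ β) : (viaEmbedding e ι).cycleType = e.cycleType := by
  unfold viaEmbedding
  exact @cycleType_extendDomain α _ _ β _ _ _ (fun a => Classical.propDecidable _) _ e

theorem cycleType_blk {I β α : Type*} [Fintype I] [DecidableEq I] [Fintype β] [DecidableEq β]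
    [Fintype α] [DecidableEq α] (ι : I × β ↪ α) (g : I → Perm β) :
    (blk ι g).cycleType = ∑ i, (g i).cycleType := by
  rw [← cycleType_blkHom]
  exact cycleType_viaEmbedding _ ι

theorem sign_of_cycleType_eq {α β : Type*} [Fintype α] [DecidableEq α] [Fintype β]
    [DecidableEq β] {σ : Perm α} {τ : Perm β} (h : σ.cycleType = τ.cycleType) :
    sign σ = sign τ := by
  rw [sign_of_cycleType, sign_of_cycleType, h]

theorem sign_blk {I β α : Type*} [Fintype I] [DecidableEq I] [Fintype β] [DecidableEq β]
    [Fintype α] [DecidableEq α] (ι : I × β ↪ α) (g : I → Perm β) :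
    sign (blk ι g) = ∏ i, sign (g i) := by
  rw [← sign_blkHom]
  apply sign_of_cycleType_eq
  rw [cycleType_blk, cycleType_blkHom]

theorem three_le_card_support {α : Type*} [Fintype α] [DecidableEq α] {κ : Perm α}
    (hs : sign κ = 1) (h1 : κ ≠ 1) : 3 ≤ κ.support.card := by
  by_contra h
  have h2 := one_lt_card_support_of_ne_one h1
  have h3 : κ.support.card = 2 := by omega
  have h4 := (card_support_eq_two.1 h3).sign_eq
  rw [hs] at h4
  exact absurd h4 (by decide)

/-- the reducing move -/
theorem gadget_perm {α : Type*} [Fintype α] [DecidableEq α] (κ : Perm α) (hs : sign κ = 1)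
    (h1 : κ ≠ 1) : ∃ A b : Perm α, sign A = 1 ∧ sign b = 1 ∧ A ≠ 1 ∧ b ≠ 1 ∧
      (A * κ).cycleType = κ.cycleType ∧ (κ * b).cycleType = κ.cycleType ∧
      (A * κ * b).support.card < κ.support.card := by
  have h3 := three_le_card_support hs h1
  obtain ⟨p, hp⟩ : κ.support.Nonempty := by
    rw [← Finset.card_pos]
    omega
  obtain ⟨q, hq⟩ : ((κ.support.erase p).erase (κ p)).Nonempty := by
    rw [← Finset.card_pos]
    have h4 := Finset.pred_card_le_card_erase (s := κ.support) (a := p)
    have h5 := Finset.pred_card_le_card_erase (s := κ.support.erase p) (a := κ p)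
    omega
  simp only [Finset.mem_erase] at hq
  obtain ⟨hq1, hq2, hq3⟩ := hq
  have hp' : κ p ≠ p := mem_support.1 hp
  have hq' : κ q ≠ q := mem_support.1 hq3
  have hpq : κ p ≠ κ q := fun h => hq2 (κ.injective h).symm
  set c : Perm α := swap (κ p) q with hc
  set d : Perm α := swap (κ p) (κ q) with hd
  have hcc : c⁻¹ = c := swap_inv _ _
  have hdd : d⁻¹ = d := swap_inv _ _
  have hcp : c p = p := swap_apply_of_ne_of_ne hp'.symm (Ne.symm hq2)
  have hcκp : c (κ p) = q := swap_apply_left _ _
  have hfix : ∀ x, κ x = x → c x = x ∧ d x = x := by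
    intro x hx
    have e1 : x ≠ κ p := by
      rintro rfl
      exact hp' (κ.injective hx)
    have e2 : x ≠ κ q := by
      rintro rfl
      exact hq' (κ.injective hx)
    have e3 : x ≠ q := by
      rintro rfl
      exact hq' hx
    exact ⟨swap_apply_of_ne_of_ne e1 e3, swap_apply_of_ne_of_ne e1 e2⟩
  refine ⟨c * κ * c⁻¹ * κ⁻¹, κ⁻¹ * d * κ * d⁻¹, ?_, ?_, ?_, ?_, ?_, ?_, ?_⟩
  · simp only [Perm.sign_mul, Perm.sign_inv, hs]
    rw [mul_one, mul_one, ← Perm.sign_mul, ← hcc]
    simp
  · simp only [Perm.sign_mul, Perm.sign_inv, hs]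
    rw [one_mul, mul_one, ← Perm.sign_mul, ← hdd]
    simp
  · intro h
    have h4 : c * κ = κ * c := by
      have h5 : c * κ * c⁻¹ * κ⁻¹ * κ * c = κ * c := by rw [h, one_mul]
      simpa [mul_assoc] using h5
    have h5 := congrArg (fun σ : Perm α => σ p) h4
    simp only [Perm.mul_apply] at h5
    rw [hcκp, hcp] at h5
    exact hq1 h5
  · intro h
    have h4 : d * κ = κ * d := by
      have h5 : κ * (κ⁻¹ * d * κ * d⁻¹) * d = κ * d := by rw [h, mul_one]
      simpa [mul_assoc] using h5
    have h5 := congrArg (fun σ : Perm α => σ p) h4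
    simp only [Perm.mul_apply] at h5
    have h6 : d (κ p) = κ q := swap_apply_left _ _
    rw [h6] at h5
    have h7 : q = d p := κ.injective h5
    by_cases h8 : p = κ q
    · have h9 : d (κ q) = κ p := swap_apply_right _ _
      rw [← h8] at h9
      rw [h9] at h7
      exact hq1 h7
    · have h9 : d p = p := swap_apply_of_ne_of_ne hp'.symm h8
      rw [h9] at h7
      exact hq2 h7
  · have : c * κ * c⁻¹ * κ⁻¹ * κ = c * κ * c⁻¹ := by group
    rw [this, cycleType_conj]
  · have : κ * (κ⁻¹ * d * κ * d⁻¹) = d * κ * d⁻¹ := by group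
    rw [this, cycleType_conj]
  · apply Finset.card_lt_card
    have hz : c * κ * c⁻¹ * κ⁻¹ * κ * (κ⁻¹ * d * κ * d⁻¹) = c * κ * c⁻¹ * (κ⁻¹ * (d * (κ * d))) := by
      rw [hdd]
      group
    rw [hz, Finset.ssubset_iff_of_subset]
    · refine ⟨q, hq3, ?_⟩
      rw [notMem_support]
      simp only [Perm.mul_apply]
      have e1 : d q = q := swap_apply_of_ne_of_ne hq1 hq'.symm
      have e2 : d (κ q) = κ p := swap_apply_right _ _
      rw [e1, e2, (Perm.inv_eq_iff_eq (f := κ)).2 rfl, hcc, hcp, hcκp]
    · intro x hx
      rw [mem_support] at hx ⊢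
      intro hx'
      apply hx
      simp only [Perm.mul_apply]
      have e1 : κ⁻¹ x = x := by rw [Perm.inv_eq_iff_eq, hx']
      rw [(hfix x hx').2, hx', (hfix x hx').2, e1, hcc, (hfix x hx').1, hx', (hfix x hx').1]

end Pool.Agent.H18.SN
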