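import Mathlib

/-!
# Embedding bipartite graphs by reducing moves: the abstract part

`P` is a group with a type function `ct : P → M` which is additive over blocks, and the adjacency of
two elements `x`, `y` of a power of `P` depends only on the sum of the types of the coordinates of
`x⁻¹ y`.
-/

open Finset

namespace Pool.Agent.H18.SN

/-- two families give an induced copy of a bipartite graph -/
theorem assemble {V : Type*} {m : ℕ} (F : SimpleGraph (Fin m)) (hF : F.Colorable 2)
    (S : V → V → Prop) (hS : ∀ x y, S x y → S y x)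
    (X Y : Fin m → V) (h1 : ∀ u w, S (X u) (Y w) ↔ F.Adj u w)
    (h2 : ∀ u u', u ≠ u' → X u ≠ X u' ∧ ¬ S (X u) (X u'))
    (h3 : ∀ u u', u ≠ u' → Y u ≠ Y u' ∧ ¬ S (Y u) (Y u'))
    (h4 : ∀ u w, X u ≠ Y w) :
    ∃ f : Fin m → V, Function.Injective f ∧ ∀ u v, u ≠ v → (F.Adj u v ↔ S (f u) (f v)) := by
  classical
  obtain ⟨c⟩ := hF
  refine ⟨fun u => if c u = 0 then X u else Y u, ?_, ?_⟩
  · intro u v huv
    by_contra hne
    simp only at huv
    by_cases hu : c u = 0
    · by_cases hv : c v = 0
      · rw [if_pos hu, if_pos hv] at huv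
        exact (h2 u v hne).1 huv
      · rw [if_pos hu, if_neg hv] at huv
        exact h4 u v huv
    · by_cases hv : c v = 0
      · rw [if_neg hu, if_pos hv] at huv
        exact h4 v u huv.symm
      · rw [if_neg hu, if_neg hv] at huv
        exact (h3 u v hne).1 huv
  · intro u v hne
    simp only
    by_cases hu : c u = 0
    · by_cases hv : c v = 0
      · rw [if_pos hu, if_pos hv]
        exact ⟨fun h => absurd (hu.trans hv.symm) (c.valid h),
          fun h => absurd h (h2 u v hne).2⟩
      · rw [if_pos hu, if_neg hv]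
        exact (h1 u v).symm
    · by_cases hv : c v = 0
      · rw [if_neg hu, if_pos hv]
        constructor
        · intro h
          exact hS _ _ ((h1 v u).2 h.symm)
        · intro h
          exact ((h1 v u).1 (hS _ _ h)).symm
      · rw [if_neg hu, if_neg hv]
        have : c u = c v := by
          have h5 : ∀ x : Fin 2, x ≠ 0 → x = 1 := by decide
          rw [h5 _ hu, h5 _ hv]
        exact ⟨fun h => absurd this (c.valid h), fun h => absurd h (h3 u v hne).2⟩

variable {P M : Type*} [Group P] [AddCommMonoid M]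

/-- the type of `x⁻¹ y` -/
def typ (ct : P → M) {I : Type*} [Fintype I] (x y : I → P) : M := ∑ i, ct ((x i)⁻¹ * y i)

/-- an induced copy of `F` in the graph on `I → P` -/
def Emb (ct : P → M) (T : Set M) (I : Type) [Fintype I] {m : ℕ} (F : SimpleGraph (Fin m)) : Prop :=
  ∃ f : Fin m → (I → P), Function.Injective f ∧
    ∀ u v, u ≠ v → (F.Adj u v ↔ typ ct (f u) (f v) ∈ T)

/-- a clique in the graph on `I → P` -/
def Clq (ct : P → M) (T : Set M) (I : Type) [Fintype I] (k : ℕ) : Prop :=
  ∃ f : Fin k → (I → P), ∀ a b, a ≠ b → f a ≠ f b ∧ typ ct (f a) (f b) ∈ T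

theorem typ_extend (ct : P → M) (h1 : ct 1 = 0) {I J : Type} [Fintype I] [Fintype J]
    (ι : I ↪ J) (x y : I → P) :
    typ ct (Function.extend ι x 1) (Function.extend ι y 1) = typ ct x y := by
  classical
  unfold typ
  rw [← Finset.sum_subset (Finset.subset_univ ((univ : Finset I).map ι))]
  · rw [Finset.sum_map]
    apply Finset.sum_congr rfl
    intro i _
    rw [ι.injective.extend_apply, ι.injective.extend_apply]
  · intro j _ hj
    have hj' : ¬ ∃ i, ι i = j := by
      rintro ⟨i, rfl⟩
      exact hj (by simp)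
    rw [Function.extend_apply' _ _ _ hj', Function.extend_apply' _ _ _ hj']
    simp [h1]

theorem extend_inj {I J : Type} (ι : I ↪ J) {x y : I → P}
    (h : Function.extend ι x (1 : J → P) = Function.extend ι y 1) : x = y := by
  funext i
  have := congrFun h (ι i)
  rwa [ι.injective.extend_apply, ι.injective.extend_apply] at this

theorem Emb.mono {ct : P → M} {T : Set M} (h1 : ct 1 = 0) {I J : Type} [Fintype I] [Fintype J]
    (hc : Fintype.card I ≤ Fintype.card J) {m : ℕ} {F : SimpleGraph (Fin m)}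
    (h : Emb ct T I F) : Emb ct T J F := by
  obtain ⟨ι⟩ := Function.Embedding.nonempty_of_card_le hc
  obtain ⟨f, hf1, hf2⟩ := h
  refine ⟨fun u => Function.extend ι (f u) 1, ?_, ?_⟩
  · intro u v huv
    exact hf1 (extend_inj ι huv)
  · intro u v huv
    rw [typ_extend ct h1]
    exact hf2 u v huv

theorem Clq.mono {ct : P → M} {T : Set M} (h1 : ct 1 = 0) {I J : Type} [Fintype I] [Fintype J]
    (hc : Fintype.card I ≤ Fintype.card J) {k : ℕ}
    (h : Clq ct T I k) : Clq ct T J k := by
  obtain ⟨ι⟩ := Function.Embedding.nonempty_of_card_le hc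
  obtain ⟨f, hf⟩ := h
  refine ⟨fun u => Function.extend ι (f u) 1, ?_⟩
  intro u v huv
  rw [typ_extend ct h1]
  exact ⟨fun h => (hf u v huv).1 (extend_inj ι h), (hf u v huv).2⟩

/-- doubles give cliques -/
theorem doubles {ct : P → M} {T : Set M} (hinv : ∀ x, ct x⁻¹ = ct x) (h1 : ct 1 = 0)
    {K : Type} [Fintype K] (e : K → P) (he : ∃ j, e j ≠ 1) (hT : 2 • ∑ j, ct (e j) ∈ T) (k : ℕ) :
    Clq ct T (Fin k × K) k := by
  classical
  refine ⟨fun a x => if x.1 = a then e x.2 else 1, ?_⟩
  intro a b hab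
  constructor
  · intro h
    obtain ⟨j, hj⟩ := he
    have := congrFun h (a, j)
    simp only [if_true] at this
    rw [if_neg hab] at this
    exact hj this
  · have : typ ct (fun x : Fin k × K => if x.1 = a then e x.2 else 1)
        (fun x : Fin k × K => if x.1 = b then e x.2 else 1) = 2 • ∑ j, ct (e j) := by
      unfold typ
      have h2 : ∀ x : Fin k × K, ct ((if x.1 = a then e x.2 else 1)⁻¹ *
          (if x.1 = b then e x.2 else 1)) =
          (if x.1 = a then ct (e x.2) else 0) + (if x.1 = b then ct (e x.2) else 0) := by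
        intro x
        by_cases hxa : x.1 = a
        · have hxb : ¬ x.1 = b := fun h => hab (hxa.symm.trans h)
          rw [if_pos hxa, if_neg hxb, if_pos hxa, if_neg hxb, mul_one, hinv, add_zero]
        · rw [if_neg hxa, if_neg hxa, inv_one, one_mul, zero_add]
          split_ifs
          · rfl
          · exact h1
      rw [Finset.sum_congr rfl (fun x _ => h2 x), Finset.sum_add_distrib, Fintype.sum_prod_type,
        Fintype.sum_prod_type]
      rw [two_nsmul]
      congr 1
      · rw [Finset.sum_eq_single a]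
        · simp
        · intro c _ hc
          simp [hc]
        · simp
      · rw [Finset.sum_eq_single b]
        · simp
        · intro c _ hc
          simp [hc]
        · simp
    rw [this]
    exact hT

theorem typ_symm {ct : P → M} (hinv : ∀ x, ct x⁻¹ = ct x) {I : Type} [Fintype I]
    (x y : I → P) : typ ct x y = typ ct y x := by
  unfold typ
  apply Finset.sum_congr rfl
  intro i _
  rw [← hinv, mul_inv_rev, inv_inv]

/-- one move -/
theorem step {ct : P → M} {T : Set M} (hinv : ∀ x, ct x⁻¹ = ct x) (h0 : ∀ x, ct x = 0 ↔ x = 1)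
    {m : ℕ} (F : SimpleGraph (Fin m)) (hF : F.Colorable 2) {K : Type} [Fintype K]
    (hE : ¬ Emb ct T ((Fin m × Fin m × Bool) ⊕ K) F)
    (hD : ∀ e : Fin m → P, (∃ j, e j ≠ 1) → 2 • ∑ j, ct (e j) ∉ T)
    {A κ b : P} (hκ : κ ≠ 1) (hA1 : A ≠ 1) (hb1 : b ≠ 1) (hA : ct (A * κ) = ct κ)
    (hb : ct (κ * b) = ct κ) (ρ : K → P) (hT : ∑ j, ct (ρ j) + (2 * m ^ 2) • ct κ ∈ T) :
    ∑ j, ct (ρ j) + ((2 * m ^ 2 - 1) • ct κ + ct (A * κ * b)) ∈ T := by
  classical
  by_contra hcon
  apply hE
  have hct1 : ct 1 = 0 := (h0 1).2 rfl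
  have hκ0 : ct κ ≠ 0 := fun h => hκ ((h0 κ).1 h)
  let X : Fin m → ((Fin m × Fin m × Bool) ⊕ K → P) := fun u =>
    Sum.elim (fun j => if j.1 = u ∧ j.2.2 = false then A⁻¹ else 1) (fun _ => 1)
  let Y : Fin m → ((Fin m × Fin m × Bool) ⊕ K → P) := fun w =>
    Sum.elim (fun j => if j.2.1 = w ∧ j.2.2 = decide (F.Adj j.1 w) then κ * b else κ) ρ
  have hXX : ∀ u u', u ≠ u' → typ ct (X u) (X u') = 2 • ∑ _j : Fin m, ct A := by
    intro u u' hne
    unfold typ
    rw [Fintype.sum_sum_type]
    have h2 : ∑ j : K, ct ((X u (Sum.inr j))⁻¹ * X u' (Sum.inr j)) = 0 := by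
      apply Finset.sum_eq_zero
      intro j _
      simp [X, hct1]
    have h3 : ∀ j : Fin m × Fin m × Bool, ct ((X u (Sum.inl j))⁻¹ * X u' (Sum.inl j)) =
        (if j.1 = u ∧ j.2.2 = false then ct A else 0) +
          (if j.1 = u' ∧ j.2.2 = false then ct A else 0) := by
      intro j
      simp only [X, Sum.elim_inl]
      by_cases hj : j.1 = u ∧ j.2.2 = false
      · have hj' : ¬ (j.1 = u' ∧ j.2.2 = false) := fun h => hne (hj.1.symm.trans h.1)
        rw [if_pos hj, if_neg hj', if_pos hj, if_neg hj', inv_inv, mul_one, add_zero]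
      · rw [if_neg hj, if_neg hj, inv_one, one_mul, zero_add]
        split_ifs
        · exact hinv A
        · exact hct1
    have h4 : ∀ v : Fin m, ∑ j : Fin m × Fin m × Bool,
        (if j.1 = v ∧ j.2.2 = false then ct A else 0) = ∑ _j : Fin m, ct A := by
      intro v
      rw [Fintype.sum_prod_type, Finset.sum_eq_single v]
      · rw [Fintype.sum_prod_type]
        simp
      · intro c _ hc
        simp [hc]
      · simp
    rw [h2, add_zero, Finset.sum_congr rfl (fun j _ => h3 j), Finset.sum_add_distrib, h4, h4,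
      two_nsmul]
  have hYY : ∀ w w', w ≠ w' → typ ct (Y w) (Y w') = 2 • ∑ _j : Fin m, ct b := by
    intro w w' hne
    unfold typ
    rw [Fintype.sum_sum_type]
    have h2 : ∑ j : K, ct ((Y w (Sum.inr j))⁻¹ * Y w' (Sum.inr j)) = 0 := by
      apply Finset.sum_eq_zero
      intro j _
      simp [Y, hct1]
    have h3 : ∀ j : Fin m × Fin m × Bool, ct ((Y w (Sum.inl j))⁻¹ * Y w' (Sum.inl j)) =
        (if j.2.1 = w ∧ j.2.2 = decide (F.Adj j.1 w) then ct b else 0) +
          (if j.2.1 = w' ∧ j.2.2 = decide (F.Adj j.1 w') then ct b else 0) := by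
      intro j
      simp only [Y, Sum.elim_inl]
      by_cases hj : j.2.1 = w ∧ j.2.2 = decide (F.Adj j.1 w)
      · have hj' : ¬ (j.2.1 = w' ∧ j.2.2 = decide (F.Adj j.1 w')) :=
          fun h => hne (hj.1.symm.trans h.1)
        rw [if_pos hj, if_neg hj', if_pos hj, if_neg hj', add_zero]
        have : (κ * b)⁻¹ * κ = b⁻¹ := by group
        rw [this, hinv]
      · rw [if_neg hj, if_neg hj, zero_add]
        split_ifs
        · have : κ⁻¹ * (κ * b) = b := by group
          rw [this]
        · have : κ⁻¹ * κ = 1 := by group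
          rw [this, hct1]
    have h4 : ∀ v : Fin m, ∑ j : Fin m × Fin m × Bool,
        (if j.2.1 = v ∧ j.2.2 = decide (F.Adj j.1 v) then ct b else 0) = ∑ _j : Fin m, ct b := by
      intro v
      rw [Fintype.sum_prod_type]
      apply Finset.sum_congr rfl
      intro u _
      rw [Fintype.sum_prod_type, Finset.sum_eq_single v]
      · simp only [true_and, Fintype.sum_bool]
        by_cases h : F.Adj u v <;> simp [h]
      · intro c _ hc
        simp [hc]
      · simp
    rw [h2, add_zero, Finset.sum_congr rfl (fun j _ => h3 j), Finset.sum_add_distrib, h4, h4,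
      two_nsmul]
  have hXY : ∀ u w, typ ct (X u) (Y w) = if F.Adj u w then
      ∑ j, ct (ρ j) + (2 * m ^ 2) • ct κ else
      ∑ j, ct (ρ j) + ((2 * m ^ 2 - 1) • ct κ + ct (A * κ * b)) := by
    intro u w
    unfold typ
    rw [Fintype.sum_sum_type]
    have h2 : ∑ j : K, ct ((X u (Sum.inr j))⁻¹ * Y w (Sum.inr j)) = ∑ j, ct (ρ j) := by
      apply Finset.sum_congr rfl
      intro j _
      simp [X, Y]
    have h3 : ∀ j : Fin m × Fin m × Bool, ct ((X u (Sum.inl j))⁻¹ * Y w (Sum.inl j)) =
        if (j = (u, w, false) ∧ ¬ F.Adj u w) then ct (A * κ * b) else ct κ := by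
      rintro ⟨u', w', β⟩
      simp only [X, Y, Sum.elim_inl]
      by_cases h5 : u' = u ∧ β = false
      · obtain ⟨rfl, rfl⟩ := h5
        by_cases h6 : w' = w
        · subst h6
          by_cases h7 : F.Adj u' w'
          · simp [h7, hA]
          · simp [h7, mul_assoc]
        · simp [h6, hA]
      · rw [if_neg h5, inv_one, one_mul]
        have h6 : ¬ ((u', w', β) = (u, w, false) ∧ ¬ F.Adj u w) := by
          rintro ⟨h6, -⟩
          simp only [Prod.mk.injEq] at h6
          exact h5 ⟨h6.1, h6.2.2⟩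
        rw [if_neg h6]
        split_ifs
        · exact hb
        · rfl
    rw [h2, Finset.sum_congr rfl (fun j _ => h3 j), add_comm]
    have hcard : (univ : Finset (Fin m × Fin m × Bool)).card = 2 * m ^ 2 := by
      simp only [card_univ, Fintype.card_prod, Fintype.card_fin, Fintype.card_bool]
      ring
    by_cases h7 : F.Adj u w
    · rw [if_pos h7]
      congr 1
      rw [Finset.sum_congr rfl (g := fun _ => ct κ) (fun j _ => by simp [h7]), Finset.sum_const,
        hcard]
    · rw [if_neg h7]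
      congr 1
      rw [← Finset.add_sum_erase univ _ (mem_univ (u, w, false)), add_comm]
      congr 1
      · rw [Finset.sum_congr rfl (g := fun _ => ct κ), Finset.sum_const, Finset.card_erase_of_mem
          (mem_univ _), hcard]
        intro j hj
        rw [if_neg]
        rintro ⟨h8, -⟩
        exact (Finset.mem_erase.1 hj).1 h8
      · simp [h7]
  apply assemble F hF (fun x y => typ ct x y ∈ T) (fun x y h => by rwa [typ_symm hinv y x]) X Y
  · intro u w
    rw [hXY]
    by_cases h : F.Adj u w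
    · simp only [h, if_true, iff_true]
      exact hT
    · simp only [h, if_false, iff_false]
      exact hcon
  · intro u u' hne
    refine ⟨?_, ?_⟩
    · intro h
      have := congrFun h (Sum.inl (u, u, false))
      simp only [X, Sum.elim_inl, and_self, if_true] at this
      rw [if_neg (fun h => hne h.1)] at this
      exact hA1 (inv_eq_one.1 this)
    · rw [hXX u u' hne]
      exact hD (fun _ => A) ⟨u, hA1⟩
  · intro w w' hne
    refine ⟨?_, ?_⟩
    · intro h
      have := congrFun h (Sum.inl (w, w, decide (F.Adj w w)))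
      simp only [Y, Sum.elim_inl, and_self, if_true] at this
      rw [if_neg (fun h => hne h.1)] at this
      exact hb1 (mul_eq_left.1 this)
    · rw [hYY w w' hne]
      exact hD (fun _ => b) ⟨w, hb1⟩
  · intro u w h
    have := congrFun h (Sum.inl (u, w, true))
    simp only [X, Y, Sum.elim_inl] at this
    rw [if_neg (by simp)] at this
    by_cases h8 : True ∧ true = decide (F.Adj u w)
    · rw [if_pos (by simpa using h8)] at this
      rw [← this, hct1] at hb
      exact hκ0 hb.symm
    · rw [if_neg (by simpa using h8)] at this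
      exact hκ this.symm

/-- many moves -/
theorem steps {ct : P → M} {T : Set M} (hinv : ∀ x, ct x⁻¹ = ct x) (h0 : ∀ x, ct x = 0 ↔ x = 1)
    {m : ℕ} (hm : 1 ≤ m) (F : SimpleGraph (Fin m)) (hF : F.Colorable 2) (B : ℕ)
    (hE : ¬ Emb ct T (Fin B) F)
    (hD : ∀ e : Fin m → P, (∃ j, e j ≠ 1) → 2 • ∑ j, ct (e j) ∉ T)
    {A κ b : P} (hκ : κ ≠ 1) (hA1 : A ≠ 1) (hb1 : b ≠ 1) (hA : ct (A * κ) = ct κ)
    (hb : ct (κ * b) = ct κ) {K : Type} [Fintype K] (ρ : K → P) (q : ℕ)
    (hq : 2 * m ^ 2 + q + Fintype.card K ≤ B)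
    (h : ∑ j, ct (ρ j) + (2 * m ^ 2 + q) • ct κ ∈ T) :
    ∀ i, i ≤ q →
      ∑ j, ct (ρ j) + ((2 * m ^ 2 + (q - i)) • ct κ + i • ct (A * κ * b)) ∈ T := by
  intro i
  induction i with
  | zero =>
    intro _
    simpa using h
  | succ i ih =>
    intro hi
    have h1 := ih (by omega)
    have hct1 : ct 1 = 0 := (h0 1).2 rfl
    obtain ⟨a, ha⟩ : ∃ a, q - i = a + 1 := ⟨q - i - 1, by omega⟩
    have h2 := step (K := K ⊕ (Fin (a + 1) ⊕ Fin i)) hinv h0 F hF ?_ hD hκ hA1 hb1 hA hb
      (Sum.elim ρ (Sum.elim (fun j => κ) (fun _ => A * κ * b))) ?_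
    · rw [Fintype.sum_sum_type] at h2
      simp only [Sum.elim_inl, Sum.elim_inr] at h2
      rw [Fintype.sum_sum_type] at h2
      simp only [Sum.elim_inl, Sum.elim_inr, Finset.sum_const, card_univ, Fintype.card_fin] at h2
      have h3 : ∑ j, ct (ρ j) + ((2 * m ^ 2 + (q - (i + 1))) • ct κ +
          (i + 1) • ct (A * κ * b)) =
          ∑ x, ct (ρ x) + ((a + 1) • ct κ + i • ct (A * κ * b)) +
            ((2 * m ^ 2 - 1) • ct κ + ct (A * κ * b)) := by
        have h4 : 2 * m ^ 2 + (q - (i + 1)) = (a + 1) + (2 * m ^ 2 - 1) := by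
          have : 1 ≤ m ^ 2 := Nat.one_le_pow _ _ hm
          omega
        rw [h4, add_nsmul _ (a + 1), add_nsmul _ i 1, one_nsmul]
        abel
      rw [h3]
      exact h2
    · intro h3
      apply hE
      refine h3.mono hct1 ?_
      simp only [Fintype.card_sum, Fintype.card_prod, Fintype.card_fin, Fintype.card_bool]
      have : m * (m * 2) = 2 * m ^ 2 := by ring
      omega
    · rw [Fintype.sum_sum_type]
      simp only [Sum.elim_inl, Sum.elim_inr]
      rw [Fintype.sum_sum_type]
      simp only [Sum.elim_inl, Sum.elim_inr, Finset.sum_const, card_univ, Fintype.card_fin]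
      rw [ha] at h1
      have h3 : ∑ x, ct (ρ x) + ((a + 1) • ct κ + i • ct (A * κ * b)) + (2 * m ^ 2) • ct κ =
          ∑ j, ct (ρ j) + ((2 * m ^ 2 + (a + 1)) • ct κ + i • ct (A * κ * b)) := by
        rw [add_nsmul _ (2 * m ^ 2)]
        abel
      rw [h3]
      exact h1

/-- the chain of moves leads to a double -/
theorem chain {ct : P → M} {T : Set M} (hinv : ∀ x, ct x⁻¹ = ct x) (h0 : ∀ x, ct x = 0 ↔ x = 1)
    (μ : P → ℕ)
    (gadget : ∀ κ : P, κ ≠ 1 → ∃ A b : P, A ≠ 1 ∧ b ≠ 1 ∧ ct (A * κ) = ct κ ∧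
      ct (κ * b) = ct κ ∧ μ (A * κ * b) < μ κ)
    {m : ℕ} (hm : 1 ≤ m) (F : SimpleGraph (Fin m)) (hF : F.Colorable 2) (B : ℕ)
    (hE : ¬ Emb ct T (Fin B) F)
    (hD : ∀ e : Fin m → P, (∃ j, e j ≠ 1) → 2 • ∑ j, ct (e j) ∉ T) :
    ∀ (s : ℕ) (κ : P), μ κ ≤ s → ∀ (K : Type) [Fintype K] (ρ : K → P) (q : ℕ),
      s * (2 * m ^ 2) ≤ q → q + Fintype.card K ≤ B →
      ∑ j, ct (ρ j) + q • ct κ ∈ T →
      ∃ (K' : Type) (_ : Fintype K') (e : K' → P), Fintype.card K' ≤ s * m ^ 2 ∧
        (κ ≠ 1 → ∃ j, e j ≠ 1) ∧ ∑ j, ct (ρ j) + 2 • ∑ j, ct (e j) ∈ T := by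
  classical
  have hct1 : ct 1 = 0 := (h0 1).2 rfl
  intro s
  induction s with
  | zero =>
    intro κ hκ K _ ρ q hq hB hT
    by_cases h1 : κ = 1
    · subst h1
      refine ⟨Empty, inferInstance, fun x => x.elim, by simp, fun h => absurd rfl h, ?_⟩
      simpa [hct1] using hT
    · obtain ⟨A, b, -, -, -, -, hlt⟩ := gadget κ h1
      omega
  | succ s ih =>
    intro κ hκ K _ ρ q hq hB hT
    by_cases h1 : κ = 1
    · subst h1
      refine ⟨Empty, inferInstance, fun x => x.elim, by simp, fun h => absurd rfl h, ?_⟩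
      simpa [hct1] using hT
    · obtain ⟨A, b, hA1, hb1, hA, hb, hlt⟩ := gadget κ h1
      have hqs : (s + 1) * (2 * m ^ 2) = s * (2 * m ^ 2) + 2 * m ^ 2 := by ring
      obtain ⟨q', rfl⟩ : ∃ q', q = 2 * m ^ 2 + q' := ⟨q - 2 * m ^ 2, by omega⟩
      have h2 := steps hinv h0 hm F hF B hE hD h1 hA1 hb1 hA hb ρ q' hB hT q' le_rfl
      obtain ⟨K', hK', e, he1, -, he3⟩ := ih (A * κ * b) (by omega) (K ⊕ Fin (2 * m ^ 2))
        (Sum.elim ρ (fun _ => κ)) q' (by omega) (by
          simp only [Fintype.card_sum, Fintype.card_fin]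
          omega) (by
          rw [Fintype.sum_sum_type]
          simp only [Sum.elim_inl, Sum.elim_inr, Finset.sum_const, card_univ, Fintype.card_fin]
          rw [add_assoc]
          simpa using h2)
      refine ⟨K' ⊕ Fin (m ^ 2), inferInstance, Sum.elim e (fun _ => κ), ?_, ?_, ?_⟩
      · simp only [Fintype.card_sum, Fintype.card_fin]
        have : (s + 1) * m ^ 2 = s * m ^ 2 + m ^ 2 := by ring
        omega
      · intro _
        have : 0 < m ^ 2 := by positivity
        exact ⟨Sum.inr ⟨0, this⟩, h1⟩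
      · rw [Fintype.sum_sum_type] at he3 ⊢
        simp only [Sum.elim_inl, Sum.elim_inr, Finset.sum_const, card_univ,
          Fintype.card_fin] at he3 ⊢
        have h3 : ∑ x, ct (ρ x) + 2 • (∑ x, ct (e x) + m ^ 2 • ct κ) =
            ∑ x, ct (ρ x) + (2 * m ^ 2) • ct κ + 2 • ∑ x, ct (e x) := by
          rw [nsmul_add, smul_smul]
          abel
        rw [h3]
        exact he3

/-- multiples of a type in `T` -/
theorem cube {ct : P → M} {T : Set M} (hinv : ∀ x, ct x⁻¹ = ct x) (h0 : ∀ x, ct x = 0 ↔ x = 1)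
    {m D : ℕ} (F : SimpleGraph (Fin m)) (φ : Fin m → Finset (Fin D))
    (hφ : Function.Injective φ) (hφF : ∀ u v, F.Adj u v ↔ (symmDiff (φ u) (φ v)).card = 1)
    (B : ℕ) (hE : ¬ Emb ct T (Fin B) F) {κ : P} (hκ : κ ≠ 1) (hT : ct κ ∈ T) (Q : ℕ)
    (hQ : 1 ≤ Q) (hQB : Q ≤ B) : ∃ q, Q < D * q ∧ q ≤ Q ∧ q • ct κ ∈ T := by
  classical
  have hct1 : ct 1 = 0 := (h0 1).2 rfl
  let J := (Finset.Icc 1 Q).filter (fun q => q • ct κ ∈ T)
  have hJ : J.Nonempty := ⟨1, by simp [J, hQ, hT]⟩
  have hmem := J.max'_mem hJ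
  set q := J.max' hJ with hq
  simp only [J, Finset.mem_filter, Finset.mem_Icc] at hmem
  refine ⟨q, ?_, hmem.1.2, hmem.2⟩
  by_contra hcon
  push Not at hcon
  apply hE
  have key : Emb ct T (Fin D × Fin q) F := by
    refine ⟨fun v x => if x.1 ∈ φ v then κ else 1, ?_, ?_⟩
    · intro u v huv
      apply hφ
      ext i
      have := congrFun huv (i, ⟨0, hmem.1.1⟩)
      simp only at this
      by_cases hu : i ∈ φ u
      · by_cases hv : i ∈ φ v
        · simp [hu, hv]
        · rw [if_pos hu, if_neg hv] at this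
          exact absurd this hκ
      · by_cases hv : i ∈ φ v
        · rw [if_neg hu, if_pos hv] at this
          exact absurd this.symm hκ
        · simp [hu, hv]
    · intro u v huv
      have h1 : typ ct (fun x : Fin D × Fin q => if x.1 ∈ φ u then κ else 1)
          (fun x : Fin D × Fin q => if x.1 ∈ φ v then κ else 1) =
          ((symmDiff (φ u) (φ v)).card * q) • ct κ := by
        unfold typ
        have h2 : ∀ x : Fin D × Fin q, ct ((if x.1 ∈ φ u then κ else 1)⁻¹ *
            (if x.1 ∈ φ v then κ else 1)) =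
            if x.1 ∈ symmDiff (φ u) (φ v) then ct κ else 0 := by
          intro x
          by_cases hu : x.1 ∈ φ u
          · by_cases hv : x.1 ∈ φ v
            · simp [hu, hv, Finset.mem_symmDiff, hct1]
            · simp [hu, hv, Finset.mem_symmDiff, hinv]
          · by_cases hv : x.1 ∈ φ v
            · simp [hu, hv, Finset.mem_symmDiff]
            · simp [hu, hv, Finset.mem_symmDiff, hct1]
        rw [Finset.sum_congr rfl (fun x _ => h2 x), Fintype.sum_prod_type]
        have h3 : ∀ x : Fin D, ∑ y : Fin q, (if ((x, y) : Fin D × Fin q).1 ∈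
            symmDiff (φ u) (φ v) then ct κ else 0) =
            if x ∈ symmDiff (φ u) (φ v) then q • ct κ else 0 := by
          intro x
          split_ifs
          · simp
          · simp
        rw [Finset.sum_congr rfl (fun x _ => h3 x), Finset.sum_ite_mem, Finset.univ_inter,
          Finset.sum_const, smul_smul]
      rw [h1, hφF]
      constructor
      · intro h2
        rw [h2, one_mul]
        exact hmem.2
      · intro h2
        by_contra h3
        have h4 : (symmDiff (φ u) (φ v)).card ≠ 0 := by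
          intro h5
          apply huv
          apply hφ
          rw [Finset.card_eq_zero] at h5
          exact symmDiff_eq_bot.1 h5
        have h5 : (symmDiff (φ u) (φ v)).card ≤ D := by
          simpa using Finset.card_le_univ (symmDiff (φ u) (φ v))
        have h6 : (symmDiff (φ u) (φ v)).card * q ∈ J := by
          simp only [J, Finset.mem_filter, Finset.mem_Icc]
          refine ⟨⟨?_, ?_⟩, h2⟩
          · exact Nat.mul_pos (Nat.pos_of_ne_zero h4) hmem.1.1
          · exact (Nat.mul_le_mul_right q h5).trans hcon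
        have h7 := J.le_max' _ h6
        rw [← hq] at h7
        have h8 : 2 * q ≤ (symmDiff (φ u) (φ v)).card * q :=
          Nat.mul_le_mul_right q (by omega)
        omega
  refine key.mono hct1 ?_
  simp only [Fintype.card_prod, Fintype.card_fin]
  omega

/-- The abstract theorem: no nontrivial element of small measure has its type in `T`. -/
theorem core {ct : P → M} {T : Set M} (hinv : ∀ x, ct x⁻¹ = ct x) (h0 : ∀ x, ct x = 0 ↔ x = 1)
    (μ : P → ℕ)
    (gadget : ∀ κ : P, κ ≠ 1 → ∃ A b : P, A ≠ 1 ∧ b ≠ 1 ∧ ct (A * κ) = ct κ ∧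
      ct (κ * b) = ct κ ∧ μ (A * κ * b) < μ κ)
    {m D : ℕ} (F : SimpleGraph (Fin m)) (φ : Fin m → Finset (Fin D))
    (hφ : Function.Injective φ) (hφF : ∀ u v, F.Adj u v ↔ (symmDiff (φ u) (φ v)).card = 1)
    (B s ω : ℕ) (hB1 : s * (2 * m ^ 2) * D ≤ B) (hB2 : ω * (s * m ^ 2) ≤ B)
    (hE : ¬ Emb ct T (Fin B) F) (hC : ¬ Clq ct T (Fin B) ω) (κ : P) (hκ : κ ≠ 1) (hs : μ κ ≤ s) :
    ct κ ∉ T := by
  classical
  intro hT
  have hct1 : ct 1 = 0 := (h0 1).2 rfl
  have hm : 1 ≤ m := by
    by_contra h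
    apply hE
    have h1 : m = 0 := by omega
    subst h1
    exact ⟨fun u => u.elim0, fun u => u.elim0, fun u => u.elim0⟩
  have hs1 : 1 ≤ s := by
    obtain ⟨A, b, -, -, -, -, hlt⟩ := gadget κ hκ
    omega
  have hm2 : 1 ≤ m ^ 2 := Nat.one_le_pow _ _ hm
  have hmm : m ≤ m ^ 2 := by nlinarith
  have hF : F.Colorable 2 := by
    refine ⟨SimpleGraph.Coloring.mk
      (fun u => (⟨(φ u).card % 2, Nat.mod_lt _ (by norm_num)⟩ : Fin 2)) ?_⟩
    intro u v huv h
    have h0 := (hφF u v).1 huv
    have h1 : (φ u).card % 2 = (φ v).card % 2 := congrArg Fin.val h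
    have h2 : (symmDiff (φ u) (φ v)).card = (φ u \ φ v).card + (φ v \ φ u).card := by
      rw [symmDiff_def, Finset.sup_eq_union, Finset.card_union_of_disjoint]
      exact disjoint_sdiff_sdiff
    have h3 := Finset.card_sdiff_add_card_inter (φ u) (φ v)
    have h4 := Finset.card_sdiff_add_card_inter (φ v) (φ u)
    rw [Finset.inter_comm] at h4
    omega
  have hD : ∀ e : Fin m → P, (∃ j, e j ≠ 1) → 2 • ∑ j, ct (e j) ∉ T := by
    intro e he h
    apply hC
    refine (doubles hinv hct1 e he h ω).mono hct1 ?_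
    simp only [Fintype.card_prod, Fintype.card_fin]
    calc ω * m ≤ ω * (s * m ^ 2) := by
          apply Nat.mul_le_mul_left
          calc m ≤ 1 * m ^ 2 := by omega
            _ ≤ s * m ^ 2 := Nat.mul_le_mul_right _ hs1
      _ ≤ B := hB2
  by_cases hD0 : D = 0
  · -- then `m ≤ 1`
    subst hD0
    apply hE
    refine ⟨fun _ _ => 1, ?_, ?_⟩
    · intro u v _
      apply hφ
      ext i
      exact i.elim0
    · intro u v huv
      exfalso
      apply huv
      apply hφ
      ext i
      exact i.elim0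
  have hD1 : 1 ≤ D := Nat.one_le_iff_ne_zero.2 hD0
  have hQ : 1 ≤ s * (2 * m ^ 2) * D := by
    have : 0 < s * (2 * m ^ 2) * D := by positivity
    omega
  obtain ⟨q, hq1, hq2, hq3⟩ := cube hinv h0 F φ hφ hφF B hE hκ hT (s * (2 * m ^ 2) * D) hQ hB1
  have hq : s * (2 * m ^ 2) ≤ q := by
    by_contra h
    push Not at h
    have : D * q ≤ s * (2 * m ^ 2) * D := by
      rw [mul_comm D q]
      exact Nat.mul_le_mul_right D h.le
    omega
  obtain ⟨K', hK', e, he1, he2, he3⟩ := chain hinv h0 μ gadget hm F hF B hE hD s κ hs Empty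
    (fun x => x.elim) q hq (by simp only [Fintype.card_empty]; omega) (by simpa using hq3)
  apply hC
  refine (doubles hinv hct1 e (he2 hκ) (by simpa using he3) ω).mono hct1 ?_
  simp only [Fintype.card_prod, Fintype.card_fin]
  exact (Nat.mul_le_mul_left ω he1).trans hB2

end Pool.Agent.H18.SN
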