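import Mathlib
import Pool.Agent.H18.SN.Blocks

/-!
# Moves for permutations with large support
-/

open Finset Equiv Equiv.Perm

namespace Pool.Agent.H18.SN

/-- an independent set of moved points -/
theorem indep {α : Type*} [Fintype α] [DecidableEq α] (σ : Perm α) :
    ∃ S : Finset α, S ⊆ σ.support ∧ (∀ x ∈ S, ∀ y ∈ S, x ≠ σ y) ∧
      σ.support.card ≤ 3 * S.card := by
  classical
  let good := (univ : Finset (Finset α)).filter
    (fun S => S ⊆ σ.support ∧ ∀ x ∈ S, ∀ y ∈ S, x ≠ σ y)
  have hne : good.Nonempty := ⟨∅, by simp [good]⟩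
  obtain ⟨S, hS, hmax⟩ := good.exists_max_image Finset.card hne
  simp only [good, Finset.mem_filter, Finset.mem_univ, true_and] at hS hmax
  refine ⟨S, hS.1, hS.2, ?_⟩
  have hsub : σ.support ⊆ S ∪ (S.image σ ∪ S.image ⇑(σ⁻¹)) := by
    intro x hx
    by_contra hcon
    simp only [Finset.mem_union, Finset.mem_image, not_or, not_exists, not_and] at hcon
    obtain ⟨h1, h2, h3⟩ := hcon
    have h4 := hmax (insert x S) ⟨?_, ?_⟩
    · rw [Finset.card_insert_of_notMem h1] at h4
      omega
    · intro y hy
      rw [Finset.mem_insert] at hy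
      rcases hy with rfl | hy
      · exact hx
      · exact hS.1 hy
    · intro y hy z hz
      rw [Finset.mem_insert] at hy hz
      rcases hy with rfl | hy
      · rcases hz with rfl | hz
        · exact fun h => mem_support.1 hx h.symm
        · exact fun h => h2 z hz h.symm
      · rcases hz with rfl | hz
        · intro h
          apply h3 y hy
          rw [h]
          exact (Perm.inv_eq_iff_eq (f := σ)).2 rfl
        · exact hS.2 y hy z hz
  calc σ.support.card ≤ (S ∪ (S.image σ ∪ S.image ⇑(σ⁻¹))).card := Finset.card_le_card hsub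
    _ ≤ S.card + ((S.image σ).card + (S.image ⇑(σ⁻¹)).card) :=
        (Finset.card_union_le _ _).trans (Nat.add_le_add_left (Finset.card_union_le _ _) _)
    _ ≤ 3 * S.card := by
        have e1 := Finset.card_image_le (s := S) (f := ⇑σ)
        have e2 := Finset.card_image_le (s := S) (f := ⇑(σ⁻¹))
        omega

theorem card_support_blk {I β α : Type*} [Fintype I] [DecidableEq I] [Fintype β] [DecidableEq β]
    [Fintype α] [DecidableEq α] (ι : I × β ↪ α) (g : I → Perm β) :
    (blk ι g).support.card = ∑ i, (g i).support.card := by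
  rw [← sum_cycleType, cycleType_blk]
  have : ∀ S : Finset I, (∑ i ∈ S, (g i).cycleType).sum = ∑ i ∈ S, (g i).support.card := by
    intro S
    induction S using Finset.induction_on with
    | empty => simp
    | insert a S ha ih => rw [Finset.sum_insert ha, Multiset.sum_add, ih, Finset.sum_insert ha,
        sum_cycleType]
  exact this univ

/-- an involution on the blocks in `U` -/
noncomputable def sw {I β α : Type*} [DecidableEq I] (ι : I × β ↪ α) (c : Perm β)
    (U : Finset I) : Perm α := blk ι (fun i => if i ∈ U then c else 1)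

theorem sw_mem {I β α : Type*} [DecidableEq I] (ι : I × β ↪ α) (c : Perm β)
    (U : Finset I) {i : I} (hi : i ∈ U) (b : β) : sw ι c U (ι (i, b)) = ι (i, c b) := by
  unfold sw
  rw [blk_apply, if_pos hi]

theorem sw_notMem {I β α : Type*} [DecidableEq I] (ι : I × β ↪ α) (c : Perm β)
    (U : Finset I) {i : I} (hi : i ∉ U) (b : β) : sw ι c U (ι (i, b)) = ι (i, b) := by
  unfold sw
  rw [blk_apply, if_neg hi]
  rfl

theorem sw_fix {I β α : Type*} [DecidableEq I] (ι : I × β ↪ α) (c : Perm β)
    (U : Finset I) (i : I) {b : β} (hb : c b = b) : sw ι c U (ι (i, b)) = ι (i, b) := by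
  by_cases hi : i ∈ U
  · rw [sw_mem ι c U hi, hb]
  · exact sw_notMem ι c U hi b

theorem sw_out {I β α : Type*} [DecidableEq I] (ι : I × β ↪ α) (c : Perm β)
    (U : Finset I) (x : α) (hx : x ∉ Set.range ι) : sw ι c U x = x :=
  blk_notMem ι _ x hx

theorem sw_inv {I β α : Type*} [DecidableEq I] (ι : I × β ↪ α) (c : Perm β)
    (hc : c⁻¹ = c) (U : Finset I) : (sw ι c U)⁻¹ = sw ι c U := by
  unfold sw
  rw [← map_inv]
  congr 1
  funext i
  by_cases hi : i ∈ U <;> simp [hi, hc]

theorem sw_comm {I β α : Type*} [DecidableEq I] (ι : I × β ↪ α) (c d : Perm β)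
    {U W : Finset I} (hUW : _root_.Disjoint U W) : sw ι c U * sw ι d W = sw ι d W * sw ι c U := by
  unfold sw
  rw [← map_mul, ← map_mul]
  congr 1
  funext i
  by_cases hi : i ∈ U
  · have : i ∉ W := fun h => (Finset.disjoint_left.1 hUW) hi h
    simp [hi, this]
  · simp [hi]

theorem sw_support {I β α : Type*} [Fintype I] [DecidableEq I] [Fintype β] [DecidableEq β]
    [Fintype α] [DecidableEq α] (ι : I × β ↪ α) (c : Perm β) (U : Finset I) :
    (sw ι c U).support.card = U.card * c.support.card := by
  unfold sw
  rw [card_support_blk]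
  have : ∀ i, (if i ∈ U then c else 1).support.card = if i ∈ U then c.support.card else 0 := by
    intro i
    split_ifs <;> simp
  rw [Finset.sum_congr rfl (fun i _ => this i), Finset.sum_ite_mem, Finset.univ_inter,
    Finset.sum_const, smul_eq_mul]

theorem sw_sign {I β α : Type*} [Fintype I] [DecidableEq I] [Fintype β] [DecidableEq β]
    [Fintype α] [DecidableEq α] (ι : I × β ↪ α) (c : Perm β) (U : Finset I) :
    sign (sw ι c U) = sign c ^ U.card := by
  unfold sw
  rw [sign_blk]
  have : ∀ i, sign (if i ∈ U then c else 1) = if i ∈ U then sign c else 1 := by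
    intro i
    split_ifs <;> simp
  rw [Finset.prod_congr rfl (fun i _ => this i), Finset.prod_ite_mem, Finset.univ_inter,
    Finset.prod_const]

/-- the two families of permutations -/
theorem swaps {α : Type*} [Fintype α] [DecidableEq α] (σ : Perm α) (hσ : sign σ = 1)
    {I : Type} [Fintype I] [DecidableEq I] (hI : 6 * Fintype.card I ≤ σ.support.card) :
    ∃ X Y : Finset I → Perm α, (∀ U, sign (X U) = 1) ∧ (∀ W, sign (Y W) = 1) ∧
      (∀ U W : Finset I, _root_.Disjoint U W → U.card = W.card → ∃ g, sign g = 1 ∧ (X U)⁻¹ * Y W = g * σ * g⁻¹) ∧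
      (∀ U W i, i ∈ U → i ∈ W → ((X U)⁻¹ * Y W).support.card < σ.support.card) ∧
      (∀ U, (X U).support.card ≤ 4 * U.card) ∧ (∀ W, (Y W).support.card = σ.support.card) ∧
      (∀ W W', ((Y W)⁻¹ * Y W').support.card ≤ 4 * (W.card + W'.card)) ∧
      (∀ U U' i, i ∈ U → i ∉ U' → X U ≠ X U') ∧ (∀ W W' i, i ∈ W → i ∉ W' → Y W ≠ Y W') := by
  classical
  obtain ⟨S, hS1, hS2, hS3⟩ := indep σ
  have hc : Fintype.card (I × Bool) ≤ Fintype.card S := by
    rw [Fintype.card_prod, Fintype.card_bool, Fintype.card_coe]
    omega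
  obtain ⟨a⟩ := Function.Embedding.nonempty_of_card_le hc
  have hamem : ∀ x, ((a x : S) : α) ∈ S := fun x => (a x).2
  have hainj : ∀ x y, ((a x : S) : α) = a y → x = y := fun x y h => a.injective (Subtype.ext h)
  let pt : I × (Bool × Bool) → α := fun x =>
    if x.2.2 = true then σ (a (x.1, x.2.1)) else a (x.1, x.2.1)
  have hptf : ∀ i β, pt (i, (β, false)) = a (i, β) := fun i β => rfl
  have hptt : ∀ i β, pt (i, (β, true)) = σ (a (i, β)) := fun i β => rfl
  have hinj : Function.Injective pt := by
    rintro ⟨i, β, ℓ⟩ ⟨j, γ, k⟩ h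
    rcases ℓ with _ | _
    · rcases k with _ | _
      · rw [hptf, hptf] at h
        have := hainj _ _ h
        simp only [Prod.mk.injEq] at this ⊢
        exact ⟨this.1, this.2, trivial⟩
      · rw [hptf, hptt] at h
        exact absurd h (hS2 _ (hamem _) _ (hamem _))
    · rcases k with _ | _
      · rw [hptf, hptt] at h
        exact absurd h.symm (hS2 _ (hamem _) _ (hamem _))
      · rw [hptt, hptt] at h
        have := hainj _ _ (σ.injective h)
        simp only [Prod.mk.injEq] at this ⊢
        exact ⟨this.1, this.2, trivial⟩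
  let ι : I × (Bool × Bool) ↪ α := ⟨pt, hinj⟩
  have hιf : ∀ i β, ι (i, (β, false)) = a (i, β) := fun i β => rfl
  have hισ : ∀ i β, σ (ι (i, (β, false))) = ι (i, (β, true)) := fun i β => rfl
  have hιmem : ∀ x, ι x ∈ σ.support := by
    rintro ⟨i, β, ℓ⟩
    rcases ℓ with _ | _
    · exact hS1 (hamem _)
    · rw [← hισ]
      exact apply_mem_support.2 (hS1 (hamem _))
  set c0 : Perm (Bool × Bool) := swap (false, true) (true, false) with hc0
  set d0 : Perm (Bool × Bool) := swap (false, true) (true, true) with hd0
  set e0 : Perm (Bool × Bool) := swap (false, false) (true, false) with he0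
  have hfixout : ∀ x, σ x = x → x ∉ Set.range ι := by
    rintro x hx ⟨y, rfl⟩
    exact mem_support.1 (hιmem y) hx
  let c : Finset I → Perm α := fun U => sw ι c0 U
  let d : Finset I → Perm α := fun U => sw ι d0 U
  let e : Finset I → Perm α := fun U => sw ι e0 U
  have hcinv : ∀ U, (c U)⁻¹ = c U := fun U => sw_inv ι c0 (swap_inv _ _) U
  have hdinv : ∀ U, (d U)⁻¹ = d U := fun U => sw_inv ι d0 (swap_inv _ _) U
  have hd00 : ∀ β, d0 (β, false) = (β, false) := by decide
  have hd01 : ∀ β, d0 (β, true) = (!β, true) := by decide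
  have he00 : ∀ β, e0 (β, true) = (β, true) := by decide
  have he01 : ∀ β, e0 (β, false) = (!β, false) := by decide
  have hc00 : c0 (false, false) = (false, false) := by decide
  have hc01 : c0 (true, true) = (true, true) := by decide
  have hc02 : c0 (true, false) = (false, true) := by decide
  have hc03 : c0 (false, true) = (true, false) := by decide
  have hconj : ∀ W, σ * e W = d W * σ := by
    intro W
    ext x
    simp only [Perm.mul_apply]
    by_cases hx : ∃ i β, x = ι (i, (β, false))
    · obtain ⟨i, β, rfl⟩ := hx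
      by_cases hi : i ∈ W
      · rw [sw_mem ι e0 W hi, he01, hισ, hισ, sw_mem ι d0 W hi, hd01]
      · rw [sw_notMem ι e0 W hi, hισ, sw_notMem ι d0 W hi]
    · have h1 : e W x = x := by
        by_cases h : x ∈ Set.range ι
        · obtain ⟨⟨i, β, ℓ⟩, rfl⟩ := h
          rcases ℓ with _ | _
          · exact absurd ⟨i, β, rfl⟩ hx
          · exact sw_fix ι e0 W i (he00 β)
        · exact sw_out ι e0 W x h
      have h2 : d W (σ x) = σ x := by
        by_cases h : σ x ∈ Set.range ι
        · obtain ⟨⟨i, β, ℓ⟩, h3⟩ := h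
          rcases ℓ with _ | _
          · rw [← h3]
            exact sw_fix ι d0 W i (hd00 β)
          · rw [← hισ] at h3
            exact absurd ⟨i, β, (σ.injective h3).symm⟩ hx
        · exact sw_out ι d0 W _ h
      rw [h1, h2]
  have hsc0 : c0.support.card = 2 := by
    rw [hc0, card_support_swap]
    decide
  have hsd0 : d0.support.card = 2 := by
    rw [hd0, card_support_swap]
    decide
  have hcs : ∀ U, (c U).support.card = U.card * 2 := fun U => by
    rw [← hsc0]; exact sw_support ι c0 U
  have hds : ∀ U, (d U).support.card = U.card * 2 := fun U => by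
    rw [← hsd0]; exact sw_support ι d0 U
  have hmul : ∀ f g : Perm α, (f * g).support.card ≤ f.support.card + g.support.card := by
    intro f g
    exact (Finset.card_le_card (support_mul_le f g)).trans (Finset.card_union_le _ _)
  have hz : ∀ U W, (σ * c U * σ⁻¹ * (c U)⁻¹)⁻¹ * (d W * σ * (d W)⁻¹) =
      c U * σ * c U * e W * d W := by
    intro U W
    have h1 : e W = σ⁻¹ * d W * σ := by
      rw [mul_assoc, ← hconj W]
      group
    rw [h1]
    have h2 := hcinv U
    have h3 := hdinv W
    simp only [mul_inv_rev, inv_inv]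
    rw [h2, h3]
    group
  refine ⟨fun U => σ * c U * σ⁻¹ * (c U)⁻¹, fun W => d W * σ * (d W)⁻¹, ?_, ?_, ?_, ?_, ?_, ?_,
    ?_, ?_, ?_⟩
  · intro U
    simp only [Perm.sign_mul, Perm.sign_inv, hσ]
    rw [one_mul, mul_one, ← Perm.sign_mul]
    nth_rewrite 1 [← hcinv U]
    simp
  · intro W
    simp only [Perm.sign_mul, Perm.sign_inv, hσ]
    rw [mul_one, ← Perm.sign_mul]
    nth_rewrite 1 [← hdinv W]
    simp
  · intro U W hUW hcard
    refine ⟨c U * d W, ?_, ?_⟩
    · rw [Perm.sign_mul]
      have e1 : sign (c U) = sign c0 ^ U.card := sw_sign ι c0 U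
      have e2 : sign (d W) = sign d0 ^ W.card := sw_sign ι d0 W
      have e3 : sign c0 = -1 := by rw [hc0, sign_swap (by decide)]
      have e4 : sign d0 = -1 := by rw [hd0, sign_swap (by decide)]
      rw [e1, e2, e3, e4, hcard, ← mul_pow]
      simp
    · simp only
      rw [hz U W]
      have e1 : c U * e W = e W * c U := sw_comm ι c0 e0 hUW
      have e2 : c U * d W = d W * c U := sw_comm ι c0 d0 hUW
      calc c U * σ * c U * e W * d W = c U * σ * (c U * e W) * d W := by group
        _ = c U * σ * e W * (c U * d W) := by rw [e1]; group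
        _ = c U * (σ * e W) * (d W * c U) := by rw [e2]; group
        _ = c U * (d W * σ) * (d W * c U) := by rw [hconj]
        _ = c U * d W * σ * (c U * d W)⁻¹ := by
            rw [mul_inv_rev, hcinv, hdinv]
            group
  · intro U W i hiU hiW
    apply Finset.card_lt_card
    simp only
    rw [hz U W, Finset.ssubset_iff_of_subset]
    · refine ⟨ι (i, (true, false)), hιmem _, ?_⟩
      rw [notMem_support]
      simp only [Perm.mul_apply]
      rw [show d W (ι (i, (true, false))) = ι (i, (true, false)) from sw_fix ι d0 W i (hd00 _),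
        show e W (ι (i, (true, false))) = ι (i, (!true, false)) by
          rw [← he01]; exact sw_mem ι e0 W hiW _]
      rw [Bool.not_true, show c U (ι (i, (false, false))) = ι (i, (false, false)) from
        sw_fix ι c0 U i hc00, hισ, show c U (ι (i, (false, true))) = ι (i, (true, false)) by
          rw [← hc03]; exact sw_mem ι c0 U hiU _]
    · intro x hx
      rw [mem_support] at hx ⊢
      intro hx'
      apply hx
      simp only [Perm.mul_apply]
      have h1 := hfixout x hx'
      rw [show d W x = x from sw_out ι d0 W x h1, show e W x = x from sw_out ι e0 W x h1,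
        show c U x = x from sw_out ι c0 U x h1, hx', show c U x = x from sw_out ι c0 U x h1]
  · intro U
    have h1 := hmul (σ * c U * σ⁻¹) (c U)⁻¹
    rw [card_support_conj, support_inv, hcs] at h1
    simp only
    omega
  · intro W
    exact card_support_conj
  · intro W W'
    have h1 : (d W * σ * (d W)⁻¹)⁻¹ * (d W' * σ * (d W')⁻¹) =
        d W * (σ⁻¹ * (d W * d W') * (σ⁻¹)⁻¹) * d W' := by
      simp only [mul_inv_rev, inv_inv]
      rw [hdinv, hdinv]
      group
    simp only
    rw [h1]
    have h2 := hmul (d W * (σ⁻¹ * (d W * d W') * (σ⁻¹)⁻¹)) (d W')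
    have h3 := hmul (d W) (σ⁻¹ * (d W * d W') * (σ⁻¹)⁻¹)
    have h4 := hmul (d W) (d W')
    rw [card_support_conj] at h3
    rw [hds] at h2 h3 h4
    rw [hds] at h4
    omega
  · intro U U' i hi hi' h
    have h1 := congrArg (fun f : Perm α => f (ι (i, (true, true)))) h
    simp only [Perm.mul_apply] at h1
    rw [hcinv, hcinv, show c U (ι (i, (true, true))) = ι (i, (true, true)) from
      sw_fix ι c0 U i hc01, show c U' (ι (i, (true, true))) = ι (i, (true, true)) from
      sw_fix ι c0 U' i hc01] at h1
    have h2 : σ⁻¹ (ι (i, (true, true))) = ι (i, (true, false)) := by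
      rw [Perm.inv_eq_iff_eq, hισ]
    rw [h2, show c U (ι (i, (true, false))) = ι (i, (false, true)) by
      rw [← hc02]; exact sw_mem ι c0 U hi _, show c U' (ι (i, (true, false))) =
      ι (i, (true, false)) from sw_notMem ι c0 U' hi' _] at h1
    have h3 := ι.injective (σ.injective h1)
    simp at h3
  · intro W W' i hi hi' h
    have h1 := congrArg (fun f : Perm α => f (ι (i, (false, false)))) h
    simp only [Perm.mul_apply] at h1
    rw [hdinv, hdinv, show d W (ι (i, (false, false))) = ι (i, (false, false)) from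
      sw_fix ι d0 W i (hd00 _), show d W' (ι (i, (false, false))) = ι (i, (false, false)) from
      sw_fix ι d0 W' i (hd00 _), hισ, show d W (ι (i, (false, true))) = ι (i, (!false, true)) by
      rw [← hd01]; exact sw_mem ι d0 W hi _, show d W' (ι (i, (false, true))) =
      ι (i, (false, true)) from sw_notMem ι d0 W' hi' _] at h1
    have h3 := ι.injective h1
    simp at h3

end Pool.Agent.H18.SN
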