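import Mathlib
import Pool.Agent.H18.SN.Core
import Pool.Agent.H18.SN.Swaps

/-!
# Elements of small support in products of alternating groups
-/

open Finset Equiv Equiv.Perm

namespace Pool.Agent.H18.SN

set_option linter.unusedSectionVars false

variable {R : Type} [Fintype R] [DecidableEq R]

/-- products of alternating groups -/
abbrev Alt (n : R → ℕ) : Type := ∀ c, alternatingGroup (Fin (n c))

/-- the total number of moved points -/
def tot {n : R → ℕ} (x : Alt n) : ℕ := ∑ c, (x c : Perm (Fin (n c))).support.card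

theorem tot_single {n : R → ℕ} (x : Alt n) (c : R) (h : ∀ c', c' ≠ c → x c' = 1) :
    tot x = (x c : Perm (Fin (n c))).support.card := by
  unfold tot
  rw [Finset.sum_eq_single c]
  · intro c' _ hc'
    rw [h c' hc']
    simp
  · simp

theorem class_mem {n : R → ℕ} {C : Set (Alt n)} (hC : ∀ g x, x ∈ C → g * x * g⁻¹ ∈ C)
    {x y : Alt n} (hx : x ∈ C)
    (h : ∀ c, (x c : Perm (Fin (n c))).cycleType = (y c : Perm (Fin (n c))).cycleType)
    (hn : ∀ c, (x c : Perm (Fin (n c))).support.card + 2 ≤ n c) : y ∈ C := by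
  have h1 : ∀ c, ∃ g : alternatingGroup (Fin (n c)), g * x c * g⁻¹ = y c := by
    intro c
    have h2 := alternatingGroup.isConj_of (isConj_iff_cycleType_eq.2 (h c))
      (by rw [Fintype.card_fin]; exact hn c)
    exact isConj_iff.1 h2
  choose g hg using h1
  have h2 : y = g * x * g⁻¹ := by
    funext c
    exact (hg c).symm
  rw [h2]
  exact hC g x hx

/-- the sets of indices -/
def setU {m : ℕ} (u : Fin m) : Finset (Fin m × Fin m × Bool) := univ.image (fun w => (u, w, false))

/-- the sets of indices -/
def setW {m : ℕ} (F : SimpleGraph (Fin m)) [DecidableRel F.Adj] (w : Fin m) :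
    Finset (Fin m × Fin m × Bool) := univ.image (fun u => (u, w, decide (F.Adj u w)))

theorem mem_setU {m : ℕ} {u : Fin m} {i : Fin m × Fin m × Bool} :
    i ∈ setU u ↔ i.1 = u ∧ i.2.2 = false := by
  obtain ⟨a, b, c⟩ := i
  simp only [setU, mem_image, mem_univ, true_and, Prod.mk.injEq]
  constructor
  · rintro ⟨w, rfl, rfl, rfl⟩
    exact ⟨rfl, rfl⟩
  · rintro ⟨rfl, rfl⟩
    exact ⟨b, rfl, rfl, rfl⟩

theorem mem_setW {m : ℕ} {F : SimpleGraph (Fin m)} [DecidableRel F.Adj] {w : Fin m}
    {i : Fin m × Fin m × Bool} : i ∈ setW F w ↔ i.2.1 = w ∧ i.2.2 = decide (F.Adj i.1 w) := by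
  obtain ⟨a, b, c⟩ := i
  simp only [setW, mem_image, mem_univ, true_and, Prod.mk.injEq]
  constructor
  · rintro ⟨w, rfl, rfl, rfl⟩
    exact ⟨rfl, rfl⟩
  · rintro ⟨rfl, h⟩
    exact ⟨a, rfl, rfl, h.symm⟩

theorem card_setU {m : ℕ} (u : Fin m) : (setU u).card = m := by
  rw [setU, Finset.card_image_of_injective, card_univ, Fintype.card_fin]
  intro w w' h
  simpa using h

theorem card_setW {m : ℕ} (F : SimpleGraph (Fin m)) [DecidableRel F.Adj] (w : Fin m) :
    (setW F w).card = m := by
  rw [setW, Finset.card_image_of_injective, card_univ, Fintype.card_fin]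
  intro u u' h
  simp only [Prod.mk.injEq] at h
  exact h.1

theorem disj_UW {m : ℕ} {F : SimpleGraph (Fin m)} [DecidableRel F.Adj] {u w : Fin m}
    (h : F.Adj u w) : _root_.Disjoint (setU u) (setW F w) := by
  rw [Finset.disjoint_left]
  intro i hi hi'
  rw [mem_setU] at hi
  rw [mem_setW, hi.1, hi.2] at hi'
  simp [h] at hi'

theorem mem_UW {m : ℕ} {F : SimpleGraph (Fin m)} [DecidableRel F.Adj] {u w : Fin m}
    (h : ¬ F.Adj u w) : (u, w, false) ∈ setU u ∧ (u, w, false) ∈ setW F w := by
  rw [mem_setU, mem_setW]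
  simp [h]

/-- one coordinate with large support -/
theorem stageA {n : R → ℕ} {C : Set (Alt n)} (hC : ∀ g x, x ∈ C → g * x * g⁻¹ ∈ C)
    (hCi : ∀ x, x ∈ C → x⁻¹ ∈ C) {m : ℕ} (F : SimpleGraph (Fin m)) (hF : F.Colorable 2)
    (τ : Alt n) (hτ : τ ∈ C) (hmin : ∀ x, x ∈ C → x ≠ 1 → tot τ ≤ tot x) (c : R)
    (hc : 12 * m ^ 2 + 8 * m + 1 ≤ (τ c : Perm (Fin (n c))).support.card) :
    ∃ f : Fin m → Alt n, Function.Injective f ∧
      ∀ u v, u ≠ v → (F.Adj u v ↔ (f u)⁻¹ * f v ∈ C) := by
  classical
  have hI : 6 * Fintype.card (Fin m × Fin m × Bool) ≤ (τ c : Perm (Fin (n c))).support.card := by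
    simp only [Fintype.card_prod, Fintype.card_fin, Fintype.card_bool]
    have : 6 * (m * (m * 2)) = 12 * m ^ 2 := by ring
    omega
  have hσ : sign (τ c : Perm (Fin (n c))) = 1 := mem_alternatingGroup.1 (τ c).2
  obtain ⟨X, Y, hX1, hY1, hadj, hnon, hXs, hYs, hYY, hXd, hYd⟩ :=
    swaps (τ c : Perm (Fin (n c))) hσ hI
  let X' : Fin m → Alt n := fun u =>
    Pi.mulSingle c ⟨X (setU u), mem_alternatingGroup.2 (hX1 _)⟩
  let Y' : Fin m → Alt n := fun w =>
    Function.update τ c ⟨Y (setW F w), mem_alternatingGroup.2 (hY1 _)⟩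
  have hX'c : ∀ u, X' u c = ⟨X (setU u), mem_alternatingGroup.2 (hX1 _)⟩ := by
    intro u
    exact Pi.mulSingle_eq_same _ _
  have hX'n : ∀ u c', c' ≠ c → X' u c' = 1 := by
    intro u c' h
    exact Pi.mulSingle_eq_of_ne h _
  have hY'c : ∀ u, Y' u c = ⟨Y (setW F u), mem_alternatingGroup.2 (hY1 _)⟩ := by
    intro u
    exact Function.update_self _ _ _
  have hY'n : ∀ u c', c' ≠ c → Y' u c' = τ c' := by
    intro u c' h
    exact Function.update_of_ne h _ _
  have hctot : (τ c : Perm (Fin (n c))).support.card ≤ tot τ :=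
    Finset.single_le_sum (f := fun c => (τ c : Perm (Fin (n c))).support.card)
      (fun _ _ => Nat.zero_le _) (mem_univ c)
  have hmul : ∀ f g : Perm (Fin (n c)), (f * g).support.card ≤ f.support.card + g.support.card := by
    intro f g
    exact (Finset.card_le_card (support_mul_le f g)).trans (Finset.card_union_le _ _)
  have hXY : ∀ u w, X' u ≠ Y' w := by
    intro u w h
    have h1 := congrArg Subtype.val (congrFun h c)
    rw [hX'c, hY'c] at h1
    have h2 := hXs (setU u)
    have h3 := hYs (setW F w)
    simp only at h1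
    rw [h1, h3, card_setU] at h2
    omega
  apply assemble F hF (fun x y => x⁻¹ * y ∈ C) _ X' Y'
  · intro u w
    by_cases h : F.Adj u w
    · simp only [h, iff_true]
      obtain ⟨g, hg1, hg2⟩ := hadj (setU u) (setW F w) (disj_UW h)
        ((card_setU u).trans (card_setW F w).symm)
      have h2 : (X' u)⁻¹ * Y' w = (Pi.mulSingle c ⟨g, mem_alternatingGroup.2 hg1⟩ : Alt n) * τ *
          (Pi.mulSingle c ⟨g, mem_alternatingGroup.2 hg1⟩ : Alt n)⁻¹ := by
        funext c'
        by_cases hc' : c' = c
        · subst hc'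
          simp only [Pi.mul_apply, Pi.inv_apply, hX'c, hY'c, Pi.mulSingle_eq_same]
          apply Subtype.ext
          exact hg2
        · simp only [Pi.mul_apply, Pi.inv_apply, hX'n u c' hc', hY'n w c' hc',
            Pi.mulSingle_eq_of_ne hc']
          simp
      rw [h2]
      exact hC _ _ hτ
    · simp only [h, iff_false]
      intro hmem
      have h1 := hmin _ hmem (fun h1 => hXY u w (inv_mul_eq_one.1 h1))
      have h2 := hnon (setU u) (setW F w) (u, w, false) (mem_UW h).1 (mem_UW h).2
      have h3 : tot ((X' u)⁻¹ * Y' w) < tot τ := by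
        unfold tot
        apply Finset.sum_lt_sum
        · intro c' _
          by_cases hc' : c' = c
          · subst hc'
            simp only [Pi.mul_apply, Pi.inv_apply, hX'c, hY'c]
            exact h2.le
          · simp only [Pi.mul_apply, Pi.inv_apply, hX'n u c' hc', hY'n w c' hc']
            simp
        · refine ⟨c, mem_univ c, ?_⟩
          simp only [Pi.mul_apply, Pi.inv_apply, hX'c, hY'c]
          exact h2
      omega
  · intro u u' hne
    have hne' : X' u ≠ X' u' := by
      intro h
      have h1 := congrArg Subtype.val (congrFun h c)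
      rw [hX'c, hX'c] at h1
      refine hXd (setU u) (setU u') (u, u, false) ?_ ?_ h1
      · rw [mem_setU]
        exact ⟨rfl, rfl⟩
      · rw [mem_setU]
        exact fun h => hne h.1
    refine ⟨hne', ?_⟩
    intro hmem
    have h1 := hmin _ hmem (fun h1 => hne' (inv_mul_eq_one.1 h1))
    have h2 : tot ((X' u)⁻¹ * X' u') ≤ 8 * m := by
      rw [tot_single _ c (fun c' hc' => by
        simp only [Pi.mul_apply, Pi.inv_apply, hX'n _ c' hc']; simp)]
      simp only [Pi.mul_apply, Pi.inv_apply, hX'c]
      have h3 := hmul (X (setU u))⁻¹ (X (setU u'))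
      rw [support_inv] at h3
      have h4 := hXs (setU u)
      have h5 := hXs (setU u')
      rw [card_setU] at h4 h5
      refine le_trans h3 ?_
      omega
    omega
  · intro w w' hne
    have hne' : Y' w ≠ Y' w' := by
      intro h
      have h1 := congrArg Subtype.val (congrFun h c)
      rw [hY'c, hY'c] at h1
      refine hYd (setW F w) (setW F w') (w, w, decide (F.Adj w w)) ?_ ?_ h1
      · rw [mem_setW]
        exact ⟨rfl, rfl⟩
      · rw [mem_setW]
        exact fun h => hne h.1
    refine ⟨hne', ?_⟩
    intro hmem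
    have h1 := hmin _ hmem (fun h1 => hne' (inv_mul_eq_one.1 h1))
    have h2 : tot ((Y' w)⁻¹ * Y' w') ≤ 8 * m := by
      rw [tot_single _ c (fun c' hc' => by
        simp only [Pi.mul_apply, Pi.inv_apply, hY'n _ c' hc']; simp)]
      simp only [Pi.mul_apply, Pi.inv_apply, hY'c]
      have h3 := hYY (setW F w) (setW F w')
      rw [card_setW, card_setW] at h3
      refine le_trans h3 ?_
      omega
    omega
  · exact hXY
  · intro x y h
    have := hCi _ h
    rwa [mul_inv_rev, inv_inv] at this

/-- many nontrivial coordinates -/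
theorem stageB {n : R → ℕ} {C : Set (Alt n)} (hC : ∀ g x, x ∈ C → g * x * g⁻¹ ∈ C)
    (hCi : ∀ x, x ∈ C → x⁻¹ ∈ C) {m : ℕ} (F : SimpleGraph (Fin m)) (hF : F.Colorable 2)
    (τ : Alt n) (hτ : τ ∈ C) (hmin : ∀ x, x ∈ C → x ≠ 1 → tot τ ≤ tot x) (t : ℕ)
    (ht : ∀ c, (τ c : Perm (Fin (n c))).support.card ≤ t) (hn : ∀ c, t + 2 ≤ n c)
    (h1 : 2 * m ^ 2 ≤ (univ.filter (fun c => τ c ≠ 1)).card)
    (h2 : 2 * m * t < (univ.filter (fun c => τ c ≠ 1)).card) :
    ∃ f : Fin m → Alt n, Function.Injective f ∧
      ∀ u v, u ≠ v → (F.Adj u v ↔ (f u)⁻¹ * f v ∈ C) := by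
  classical
  have hgad : ∀ c, ∃ A b : alternatingGroup (Fin (n c)), τ c ≠ 1 → (A ≠ 1 ∧ b ≠ 1 ∧
      ((A * τ c : alternatingGroup (Fin (n c))) : Perm (Fin (n c))).cycleType =
        (τ c : Perm (Fin (n c))).cycleType ∧
      ((τ c * b : alternatingGroup (Fin (n c))) : Perm (Fin (n c))).cycleType =
        (τ c : Perm (Fin (n c))).cycleType ∧
      ((A * τ c * b : alternatingGroup (Fin (n c))) : Perm (Fin (n c))).support.card <
        (τ c : Perm (Fin (n c))).support.card) := by
    intro c
    by_cases h : τ c = 1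
    · exact ⟨1, 1, fun h' => absurd h h'⟩
    · obtain ⟨A, b, hA, hb, hA1, hb1, hAc, hbc, hlt⟩ := gadget_perm (τ c : Perm (Fin (n c)))
        (mem_alternatingGroup.1 (τ c).2) (fun h' => h (Subtype.ext h'))
      refine ⟨⟨A, mem_alternatingGroup.2 hA⟩, ⟨b, mem_alternatingGroup.2 hb⟩, fun _ =>
        ⟨fun h' => hA1 (congrArg Subtype.val h'), fun h' => hb1 (congrArg Subtype.val h'),
          hAc, hbc, hlt⟩⟩
  choose A b hAb using hgad
  have hmul : ∀ c, ∀ f g : alternatingGroup (Fin (n c)),
      ((f * g : alternatingGroup (Fin (n c))) : Perm (Fin (n c))).support.card ≤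
      (f : Perm (Fin (n c))).support.card + (g : Perm (Fin (n c))).support.card := by
    intro c f g
    exact (Finset.card_le_card (support_mul_le _ _)).trans (Finset.card_union_le _ _)
  have hinvs : ∀ c, ∀ f : alternatingGroup (Fin (n c)),
      ((f⁻¹ : alternatingGroup (Fin (n c))) : Perm (Fin (n c))).support.card =
      (f : Perm (Fin (n c))).support.card := by
    intro c f
    rw [InvMemClass.coe_inv, support_inv]
  have hct : ∀ c, ∀ f g : alternatingGroup (Fin (n c)),
      (f : Perm (Fin (n c))).cycleType = (g : Perm (Fin (n c))).cycleType →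
      (f : Perm (Fin (n c))).support.card = (g : Perm (Fin (n c))).support.card := by
    intro c f g h
    rw [← sum_cycleType, h, sum_cycleType]
  have hAs : ∀ c, τ c ≠ 1 → (A c : Perm (Fin (n c))).support.card ≤ 2 * t := by
    intro c hc
    have h3 := hmul c (A c * τ c) (τ c)⁻¹
    rw [mul_inv_cancel_right, hinvs, hct c _ _ (hAb c hc).2.2.1] at h3
    have := ht c
    omega
  have hbs : ∀ c, τ c ≠ 1 → (b c : Perm (Fin (n c))).support.card ≤ 2 * t := by
    intro c hc
    have h3 := hmul c (τ c)⁻¹ (τ c * b c)
    rw [inv_mul_cancel_left, hinvs, hct c _ _ (hAb c hc).2.2.2.1] at h3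
    have := ht c
    omega
  let N : Finset R := univ.filter (fun c => τ c ≠ 1)
  have hcard : Fintype.card (Fin m × Fin m × Bool) ≤ Fintype.card N := by
    rw [Fintype.card_coe]
    change _ ≤ (univ.filter (fun c => τ c ≠ 1)).card
    simp only [Fintype.card_prod, Fintype.card_fin, Fintype.card_bool]
    have : m * (m * 2) = 2 * m ^ 2 := by ring
    omega
  obtain ⟨e⟩ := Function.Embedding.nonempty_of_card_le hcard
  have he : ∀ i, τ (e i) ≠ 1 := fun i => (Finset.mem_filter.1 (e i).2).2
  have heinj : ∀ i j, (e i : R) = e j → i = j :=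
    fun i j h => e.injective (Subtype.ext h)
  let im : Finset (Fin m × Fin m × Bool) → Finset R := fun U => U.image (fun i => (e i : R))
  have him : ∀ U i, (e i : R) ∈ im U ↔ i ∈ U := by
    intro U i
    simp only [im, Finset.mem_image]
    constructor
    · rintro ⟨j, hj, h⟩
      rw [← heinj j i h]
      exact hj
    · intro h
      exact ⟨i, h, rfl⟩
  have himτ : ∀ U c, c ∈ im U → τ c ≠ 1 := by
    intro U c hc
    obtain ⟨i, -, rfl⟩ := Finset.mem_image.1 hc
    exact he i
  have himcard : ∀ U, (im U).card ≤ U.card := fun U => Finset.card_image_le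
  let X : Fin m → Alt n := fun u c => if c ∈ im (setU u) then (A c)⁻¹ else 1
  let Y : Fin m → Alt n := fun w c => if c ∈ im (setW F w) then τ c * b c else τ c
  have htot : 2 * (univ.filter (fun c => τ c ≠ 1)).card ≤ tot τ := by
    unfold tot
    rw [mul_comm, ← smul_eq_mul, ← Finset.sum_const]
    refine (Finset.sum_le_sum ?_).trans (Finset.sum_le_sum_of_subset (Finset.subset_univ _))
    intro c hc
    have h3 : (τ c : Perm (Fin (n c))) ≠ 1 := fun h => (Finset.mem_filter.1 hc).2 (Subtype.ext h)
    exact one_lt_card_support_of_ne_one h3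
  have hbound : ∀ (V : Finset R) (x : Alt n), V.card ≤ 2 * m →
      (∀ c, c ∉ V → x c = 1) → (∀ c, c ∈ V → (x c : Perm (Fin (n c))).support.card ≤ 2 * t) →
      tot x < tot τ := by
    intro V x hV hx1 hx2
    have h3 : tot x ≤ V.card * (2 * t) := by
      unfold tot
      rw [← smul_eq_mul, ← Finset.sum_const]
      rw [← Finset.sum_subset (Finset.subset_univ V)]
      · exact Finset.sum_le_sum hx2
      · intro c _ hc
        rw [hx1 c hc]
        simp
    have h4 : V.card * (2 * t) ≤ 2 * m * (2 * t) := Nat.mul_le_mul_right _ hV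
    have h5 : 2 * m * (2 * t) = 2 * (2 * m * t) := by ring
    omega
  have hXY : ∀ u w, X u ≠ Y w := by
    intro u w h
    have h3 := congrFun h (e (u, w, true))
    have h4 : (e (u, w, true) : R) ∉ im (setU u) := by
      rw [him, mem_setU]
      simp
    simp only [X, Y] at h3
    rw [if_neg h4] at h3
    split_ifs at h3
    · have h5 := (hAb _ (he (u, w, true))).2.2.2.1
      rw [← h3] at h5
      have h6 : (τ (e (u, w, true)) : Perm (Fin (n (e (u, w, true))))).cycleType = 0 := by
        rw [← h5]
        simp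
      rw [cycleType_eq_zero] at h6
      exact he _ (Subtype.ext h6)
    · exact he _ h3.symm
  apply assemble F hF (fun x y => x⁻¹ * y ∈ C) _ X Y
  · intro u w
    by_cases h : F.Adj u w
    · simp only [h, iff_true]
      have hd := disj_UW h
      refine class_mem hC hτ ?_ ?_
      · intro c
        simp only [X, Y, Pi.mul_apply, Pi.inv_apply]
        by_cases hcU : c ∈ im (setU u)
        · have hcW : c ∉ im (setW F w) := by
            obtain ⟨i, hi, rfl⟩ := Finset.mem_image.1 hcU
            rw [him]
            exact fun h' => (Finset.disjoint_left.1 hd) hi h'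
          rw [if_pos hcU, if_neg hcW, inv_inv]
          exact (hAb c (himτ _ c hcU)).2.2.1.symm
        · by_cases hcW : c ∈ im (setW F w)
          · rw [if_neg hcU, if_pos hcW, inv_one, one_mul]
            exact (hAb c (himτ _ c hcW)).2.2.2.1.symm
          · rw [if_neg hcU, if_neg hcW, inv_one, one_mul]
      · intro c
        have := ht c
        have := hn c
        omega
    · simp only [h, iff_false]
      intro hmem
      have h3 := hmin _ hmem (fun h1 => hXY u w (inv_mul_eq_one.1 h1))
      obtain ⟨h4, h5⟩ := mem_UW h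
      have h6 : tot ((X u)⁻¹ * Y w) < tot τ := by
        unfold tot
        apply Finset.sum_lt_sum
        · intro c _
          simp only [X, Y, Pi.mul_apply, Pi.inv_apply]
          by_cases hcU : c ∈ im (setU u)
          · by_cases hcW : c ∈ im (setW F w)
            · rw [if_pos hcU, if_pos hcW, inv_inv, ← mul_assoc]
              exact (hAb c (himτ _ c hcU)).2.2.2.2.le
            · rw [if_pos hcU, if_neg hcW, inv_inv, ← sum_cycleType,
                (hAb c (himτ _ c hcU)).2.2.1, sum_cycleType]
          · by_cases hcW : c ∈ im (setW F w)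
            · rw [if_neg hcU, if_pos hcW, inv_one, one_mul, ← sum_cycleType,
                (hAb c (himτ _ c hcW)).2.2.2.1, sum_cycleType]
            · rw [if_neg hcU, if_neg hcW, inv_one, one_mul]
        · refine ⟨e (u, w, false), mem_univ _, ?_⟩
          simp only [X, Y, Pi.mul_apply, Pi.inv_apply]
          rw [if_pos ((him _ _).2 h4), if_pos ((him _ _).2 h5), inv_inv, ← mul_assoc]
          exact (hAb _ (he _)).2.2.2.2
      omega
  · intro u u' hne
    have hne' : X u ≠ X u' := by
      intro h
      have h3 := congrFun h (e (u, u, false))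
      have h4 : (e (u, u, false) : R) ∈ im (setU u) := by
        rw [him, mem_setU]
        exact ⟨rfl, rfl⟩
      have h5 : (e (u, u, false) : R) ∉ im (setU u') := by
        rw [him, mem_setU]
        exact fun h => hne h.1
      simp only [X] at h3
      rw [if_pos h4, if_neg h5, inv_eq_one] at h3
      exact (hAb _ (he _)).1 h3
    refine ⟨hne', ?_⟩
    intro hmem
    have h3 := hmin _ hmem (fun h1 => hne' (inv_mul_eq_one.1 h1))
    have h4 : tot ((X u)⁻¹ * X u') < tot τ := by
      apply hbound (im (setU u) ∪ im (setU u'))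
      · have e1 := Finset.card_union_le (im (setU u)) (im (setU u'))
        have e2 := himcard (setU u)
        have e3 := himcard (setU u')
        rw [card_setU] at e2 e3
        omega
      · intro c hc
        rw [Finset.mem_union, not_or] at hc
        simp only [X, Pi.mul_apply, Pi.inv_apply]
        rw [if_neg hc.1, if_neg hc.2, inv_one, one_mul]
      · intro c hc
        have hτc : τ c ≠ 1 := by
          rcases Finset.mem_union.1 hc with h | h
          · exact himτ _ _ h
          · exact himτ _ _ h
        simp only [X, Pi.mul_apply, Pi.inv_apply]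
        split_ifs
        · simp
        · rw [inv_inv, mul_one]
          exact hAs c hτc
        · rw [inv_one, one_mul, hinvs]
          exact hAs c hτc
        · simp
    omega
  · intro w w' hne
    have hne' : Y w ≠ Y w' := by
      intro h
      have h3 := congrFun h (e (w, w, decide (F.Adj w w)))
      have h4 : (e (w, w, decide (F.Adj w w)) : R) ∈ im (setW F w) := by
        rw [him, mem_setW]
        exact ⟨rfl, rfl⟩
      have h5 : (e (w, w, decide (F.Adj w w)) : R) ∉ im (setW F w') := by
        rw [him, mem_setW]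
        exact fun h => hne h.1
      simp only [Y] at h3
      rw [if_pos h4, if_neg h5, mul_eq_left] at h3
      exact (hAb _ (he _)).2.1 h3
    refine ⟨hne', ?_⟩
    intro hmem
    have h3 := hmin _ hmem (fun h1 => hne' (inv_mul_eq_one.1 h1))
    have h4 : tot ((Y w)⁻¹ * Y w') < tot τ := by
      apply hbound (im (setW F w) ∪ im (setW F w'))
      · have e1 := Finset.card_union_le (im (setW F w)) (im (setW F w'))
        have e2 := himcard (setW F w)
        have e3 := himcard (setW F w')
        rw [card_setW] at e2 e3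
        omega
      · intro c hc
        rw [Finset.mem_union, not_or] at hc
        simp only [Y, Pi.mul_apply, Pi.inv_apply]
        rw [if_neg hc.1, if_neg hc.2, inv_mul_cancel]
      · intro c hc
        have hτc : τ c ≠ 1 := by
          rcases Finset.mem_union.1 hc with h | h
          · exact himτ _ _ h
          · exact himτ _ _ h
        simp only [Y, Pi.mul_apply, Pi.inv_apply]
        split_ifs
        · simp
        · rw [mul_inv_rev, inv_mul_cancel_right, hinvs]
          exact hbs c hτc
        · rw [inv_mul_cancel_left]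
          exact hbs c hτc
        · simp
    omega
  · exact hXY
  · intro x y h
    have := hCi _ h
    rwa [mul_inv_rev, inv_inv] at this

end Pool.Agent.H18.SN
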