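import Mathlib
import Pool.Agent.H18.SN.Stage

/-!
# Invariant connection sets in products of large alternating groups
-/

open Finset Equiv Equiv.Perm

namespace Pool.Agent.H18.SN

set_option linter.unusedSectionVars false

variable {R : Type} [Fintype R] [DecidableEq R]

/-- the cycle types of the coordinates -/
def cyc (L : ℕ) (x : Alt (fun _ : R => L)) : R → Multiset ℕ :=
  fun c => (x c : Perm (Fin L)).cycleType

/-- the degree needed -/
def deg₀ (m D ω : ℕ) : ℕ :=
  2 * m * (12 * m ^ 2 + 8 * m + 1) ^ 3 * m ^ 2 * (2 * D + ω) + (12 * m ^ 2 + 8 * m + 1) + 2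

theorem main_alt {n : R → ℕ} {C : Set (Alt n)} (hC : ∀ g x, x ∈ C → g * x * g⁻¹ ∈ C)
    (hCi : ∀ x, x ∈ C → x⁻¹ ∈ C) {m D : ℕ} (F : SimpleGraph (Fin m))
    (φ : Fin m → Finset (Fin D))
    (hφ : Function.Injective φ) (hφF : ∀ u v, F.Adj u v ↔ (symmDiff (φ u) (φ v)).card = 1)
    (ω : ℕ) (hn : ∀ c, deg₀ m D ω ≤ n c)
    (hE : ¬ ∃ f : Fin m → Alt n, Function.Injective f ∧
      ∀ u v, u ≠ v → (F.Adj u v ↔ (f u)⁻¹ * f v ∈ C))
    (hCl : ¬ ∃ f : Fin ω → Alt n, ∀ a b, a ≠ b → f a ≠ f b ∧ (f a)⁻¹ * f b ∈ C) :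
    ∀ x ∈ C, x = 1 := by
  classical
  by_contra hcon
  push Not at hcon
  obtain ⟨x₀, hx₀, hx₁⟩ := hcon
  let good : Finset (Alt n) := univ.filter (fun x => x ∈ C ∧ x ≠ 1)
  have hne : good.Nonempty := ⟨x₀, by simp [good, hx₀, hx₁]⟩
  obtain ⟨τ, hτ, hmin⟩ := good.exists_min_image tot hne
  simp only [good, Finset.mem_filter, Finset.mem_univ, true_and] at hτ hmin
  obtain ⟨hτC, hτ1⟩ := hτ
  have hmin' : ∀ x, x ∈ C → x ≠ 1 → tot τ ≤ tot x := fun x h1 h2 => hmin x ⟨h1, h2⟩
  have hF : F.Colorable 2 := by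
    refine ⟨SimpleGraph.Coloring.mk
      (fun u => (⟨(φ u).card % 2, Nat.mod_lt _ (by norm_num)⟩ : Fin 2)) ?_⟩
    intro u v huv h
    have h0 := (hφF u v).1 huv
    have h1 : (φ u).card % 2 = (φ v).card % 2 := congrArg Fin.val h
    have h2 : (symmDiff (φ u) (φ v)).card = (φ u \ φ v).card + (φ v \ φ u).card := by
      rw [symmDiff_def, Finset.sup_eq_union, Finset.card_union_of_disjoint]
      exact disjoint_sdiff_sdiff
    have h3 := Finset.card_sdiff_add_card_inter (φ u) (φ v)
    have h4 := Finset.card_sdiff_add_card_inter (φ v) (φ u)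
    rw [Finset.inter_comm] at h4
    omega
  set L := 12 * m ^ 2 + 8 * m + 1 with hL
  have hsmall : ∀ c, (τ c : Perm (Fin (n c))).support.card ≤ L := by
    intro c
    by_contra h
    push Not at h
    exact hE (stageA hC hCi F hF τ hτC hmin' c (by omega))
  have hnL : ∀ c, L + 2 ≤ n c := by
    intro c
    have := hn c
    unfold deg₀ at this
    omega
  have hm1 : 1 ≤ m := by
    by_contra h
    apply hE
    have h1 : m = 0 := by omega
    subst h1
    exact ⟨fun u => u.elim0, fun u => u.elim0, fun u => u.elim0⟩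
  have hfew : (univ.filter (fun c => τ c ≠ 1)).card ≤ 2 * m * L := by
    by_contra h
    push Not at h
    have h1 : 2 * m ^ 2 ≤ 2 * m * L := by
      have : m ≤ L := by
        rw [hL]
        omega
      calc 2 * m ^ 2 = 2 * m * m := by ring
        _ ≤ 2 * m * L := Nat.mul_le_mul_left _ this
    exact hE (stageB hC hCi F hF τ hτC hmin' L hsmall hnL (by omega) h)
  have htot : tot τ ≤ 2 * m * L * L := by
    unfold tot
    rw [← Finset.sum_subset (Finset.subset_univ (univ.filter (fun c => τ c ≠ 1)))]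
    · calc ∑ c ∈ univ.filter (fun c => τ c ≠ 1), (τ c : Perm (Fin (n c))).support.card
          ≤ ∑ _c ∈ univ.filter (fun c => τ c ≠ 1), L := Finset.sum_le_sum (fun c _ => hsmall c)
        _ = (univ.filter (fun c => τ c ≠ 1)).card * L := by rw [Finset.sum_const, smul_eq_mul]
        _ ≤ 2 * m * L * L := Nat.mul_le_mul_right _ hfew
    · intro c _ hc
      have : τ c = 1 := by
        by_contra h
        exact hc (by simp [h])
      rw [this]
      simp
  set s := 2 * m * L * L with hs
  set B := s * m ^ 2 * (2 * D + ω) with hB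
  have hBL : ∀ c, B * L + 2 ≤ n c := by
    intro c
    have h1 := hn c
    unfold deg₀ at h1
    have h2 : B * L = 2 * m * (12 * m ^ 2 + 8 * m + 1) ^ 3 * m ^ 2 * (2 * D + ω) := by
      rw [hB, hs, hL]
      ring
    omega
  -- the small copy of `τ`
  have hκ : ∀ c, ∃ k : alternatingGroup (Fin L),
      (k : Perm (Fin L)).cycleType = (τ c : Perm (Fin (n c))).cycleType := by
    intro c
    obtain ⟨g, hg⟩ := (exists_with_cycleType_iff (α := Fin L)
      (m := (τ c : Perm (Fin (n c))).cycleType)).2 ⟨by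
        rw [sum_cycleType, Fintype.card_fin]
        exact hsmall c, fun a ha => two_le_of_mem_cycleType ha⟩
    refine ⟨⟨g, mem_alternatingGroup.2 ?_⟩, hg⟩
    rw [sign_of_cycleType_eq hg]
    exact mem_alternatingGroup.1 (τ c).2
  choose κ hκ using hκ
  let T : Set (R → Multiset ℕ) := {s | ∃ z ∈ C, (∀ c, (z c : Perm (Fin (n c))).support.card + 2 ≤ n c) ∧
    ∀ c, (z c : Perm (Fin (n c))).cycleType = s c}
  have hκ1 : κ ≠ 1 := by
    intro h
    apply hτ1
    funext c
    have h1 := hκ c
    rw [h] at h1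
    simp only [Pi.one_apply, OneMemClass.coe_one, cycleType_one] at h1
    exact Subtype.ext (cycleType_eq_zero.1 h1.symm)
  have hκT : cyc L κ ∈ T := by
    refine ⟨τ, hτC, ?_, fun c => (hκ c).symm⟩
    intro c
    have := hsmall c
    have := hnL c
    omega
  -- the blocks
  have hι : ∀ c, Nonempty (Fin B × Fin L ↪ Fin (n c)) := by
    intro c
    apply Function.Embedding.nonempty_of_card_le
    simp only [Fintype.card_prod, Fintype.card_fin]
    have := hBL c
    omega
  let ι : ∀ c, Fin B × Fin L ↪ Fin (n c) := fun c => (hι c).some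
  let Φ : (Fin B → Alt (fun _ : R => L)) → Alt n := fun x c =>
    ⟨blk (ι c) (fun i => (x i c : Perm (Fin L))), by
      rw [mem_alternatingGroup, sign_blk]
      exact Finset.prod_eq_one (fun i _ => mem_alternatingGroup.1 (x i c).2)⟩
  have hΦinj : Function.Injective Φ := by
    intro x y h
    funext i c
    have h1 := congrArg Subtype.val (congrFun h c)
    have h2 := blk_injective (ι c) h1
    exact Subtype.ext (congrFun h2 i)
  have hΦ : ∀ x y c, (((Φ x)⁻¹ * Φ y) c : Perm (Fin (n c))) =
      blk (ι c) (fun i => (((x i)⁻¹ * y i) c : alternatingGroup (Fin L))) := by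
    intro x y c
    have h1 : (fun i => ((((x i)⁻¹ * y i) c : alternatingGroup (Fin L)) : Perm (Fin L))) =
        (fun i => (x i c : Perm (Fin L)))⁻¹ * (fun i => (y i c : Perm (Fin L))) := by
      funext i
      rfl
    rw [h1, map_mul, map_inv]
    rfl
  have hct : ∀ x y c, (((Φ x)⁻¹ * Φ y) c : Perm (Fin (n c))).cycleType =
      typ (cyc L) x y c := by
    intro x y c
    rw [hΦ, cycleType_blk]
    unfold typ
    rw [Finset.sum_apply]
    rfl
  have hsup : ∀ x y c, (((Φ x)⁻¹ * Φ y) c : Perm (Fin (n c))).support.card + 2 ≤ n c := by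
    intro x y c
    rw [hΦ, card_support_blk]
    have h1 : ∑ i : Fin B, ((((x i)⁻¹ * y i) c : alternatingGroup (Fin L)) :
        Perm (Fin L)).support.card ≤ ∑ _i : Fin B, L := by
      apply Finset.sum_le_sum
      intro i _
      exact (Finset.card_le_univ _).trans (by rw [Fintype.card_fin])
    rw [Finset.sum_const, card_univ, Fintype.card_fin, smul_eq_mul] at h1
    have := hBL c
    omega
  have hT : ∀ x y, typ (cyc L) x y ∈ T ↔ (Φ x)⁻¹ * Φ y ∈ C := by
    intro x y
    constructor
    · rintro ⟨z, hz, hz1, hz2⟩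
      refine class_mem hC hz ?_ hz1
      intro c
      rw [hz2, hct]
    · intro h
      exact ⟨_, h, hsup x y, hct x y⟩
  refine core (ct := cyc L) (T := T) ?_ ?_ tot ?_ F φ hφ hφF B s ω ?_ ?_ ?_ ?_ κ hκ1 ?_ hκT
  · intro x
    funext c
    exact cycleType_inv _
  · intro x
    constructor
    · intro h
      funext c
      exact Subtype.ext (cycleType_eq_zero.1 (congrFun h c))
    · rintro rfl
      funext c
      exact cycleType_one
  · intro k hk
    obtain ⟨c, hc⟩ : ∃ c, k c ≠ 1 := by
      by_contra h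
      push Not at h
      exact hk (funext h)
    obtain ⟨A, b, hA, hb, hA1, hb1, hAc, hbc, hlt⟩ := gadget_perm (k c : Perm (Fin L))
      (mem_alternatingGroup.1 (k c).2) (fun h' => hc (Subtype.ext h'))
    refine ⟨Pi.mulSingle c ⟨A, mem_alternatingGroup.2 hA⟩,
      Pi.mulSingle c ⟨b, mem_alternatingGroup.2 hb⟩, ?_, ?_, ?_, ?_, ?_⟩
    · intro h
      have h1 := congrFun h c
      rw [Pi.mulSingle_eq_same] at h1
      exact hA1 (congrArg Subtype.val h1)
    · intro h
      have h1 := congrFun h c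
      rw [Pi.mulSingle_eq_same] at h1
      exact hb1 (congrArg Subtype.val h1)
    · funext c'
      unfold cyc
      by_cases h : c' = c
      · subst h
        rw [Pi.mul_apply, Pi.mulSingle_eq_same]
        exact hAc
      · rw [Pi.mul_apply, Pi.mulSingle_eq_of_ne h, one_mul]
    · funext c'
      unfold cyc
      by_cases h : c' = c
      · subst h
        rw [Pi.mul_apply, Pi.mulSingle_eq_same]
        exact hbc
      · rw [Pi.mul_apply, Pi.mulSingle_eq_of_ne h, mul_one]
    · unfold tot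
      apply Finset.sum_lt_sum
      · intro c' _
        by_cases h : c' = c
        · subst h
          rw [Pi.mul_apply, Pi.mul_apply, Pi.mulSingle_eq_same, Pi.mulSingle_eq_same]
          exact hlt.le
        · rw [Pi.mul_apply, Pi.mul_apply, Pi.mulSingle_eq_of_ne h, Pi.mulSingle_eq_of_ne h,
            one_mul, mul_one]
      · refine ⟨c, mem_univ c, ?_⟩
        rw [Pi.mul_apply, Pi.mul_apply, Pi.mulSingle_eq_same, Pi.mulSingle_eq_same]
        exact hlt
  · rw [hB]
    calc s * (2 * m ^ 2) * D = s * m ^ 2 * (2 * D) := by ring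
      _ ≤ s * m ^ 2 * (2 * D + ω) := Nat.mul_le_mul_left _ (by omega)
  · rw [hB]
    calc ω * (s * m ^ 2) = s * m ^ 2 * ω := by ring
      _ ≤ s * m ^ 2 * (2 * D + ω) := Nat.mul_le_mul_left _ (by omega)
  · rintro ⟨f, hf1, hf2⟩
    apply hE
    refine ⟨fun u => Φ (f u), hΦinj.comp hf1, ?_⟩
    intro u v huv
    rw [hf2 u v huv, hT]
  · rintro ⟨f, hf⟩
    apply hCl
    refine ⟨fun u => Φ (f u), ?_⟩
    intro a b hab
    exact ⟨fun h => (hf a b hab).1 (hΦinj h), (hT _ _).1 (hf a b hab).2⟩
  · have h1 : tot κ = tot τ := by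
      unfold tot
      apply Finset.sum_congr rfl
      intro c _
      rw [← sum_cycleType, hκ, sum_cycleType]
    rw [h1]
    exact htot

end Pool.Agent.H18.SN
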