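import Mathlib
import Pool.Agent.H18.SN.Main
import Pool.Graph.R_seed8.H367R3.GSForest
import Pool.Graph.R_seed8.TH71.JH.Trees

/-!
# Cayley graphs of groups with a product of alternating groups as a subgroup
-/

open Finset Equiv Equiv.Perm

namespace Pool.Agent.H18.SN

/-- a forest with `m` vertices is an induced subgraph of the `m`-dimensional cube -/
theorem forest_cube {m : ℕ} (F : SimpleGraph (Fin m)) (hF : F.IsAcyclic) :
    ∃ φ : Fin m → Finset (Fin m), Function.Injective φ ∧
      ∀ u v, F.Adj u v ↔ (symmDiff (φ u) (φ v)).card = 1 := by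
  obtain ⟨T, hT, ⟨e⟩⟩ := Pool.Agent.H367R3.forest_in_tree F hF
  obtain ⟨f, hf1, hf2⟩ := Pool.Agent.TH71.JH.tree_family 1 m (Fin (m + 1)) T hT
    (Fintype.card_fin _) (Fin m) (by simp)
  have hinj : Function.Injective f := by
    intro v w hvw
    by_contra hne
    have h0 : (symmDiff (f v) (f w)).card = 0 := by rw [hvw]; simp
    by_cases h : T.Adj v w
    · have := hf1 v w h
      omega
    · obtain ⟨r, hr, -, hr2⟩ := hf2 v w hne h
      omega
  refine ⟨fun u => f (e u), hinj.comp e.injective, ?_⟩
  intro u v
  rw [← e.map_adj_iff]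
  constructor
  · intro h
    exact hf1 _ _ h
  · intro h1'
    have h1 : (symmDiff (f (e u)) (f (e v))).card = 1 := h1'
    by_contra hn
    have hne : e u ≠ e v := by
      intro h
      simp only [h, symmDiff_self, Finset.bot_eq_empty, Finset.card_empty] at h1
      exact absurd h1 (by norm_num)
    obtain ⟨r, hr, -, hr2⟩ := hf2 _ _ hne hn
    omega

theorem main_group {Γ : Type} [Group Γ] [Finite Γ] (N : Subgroup Γ) {R : Type} [Fintype R]
    (n : R → ℕ) (e : N ≃* Alt n) (C : Set Γ)
    (hC : ∀ g ∈ N, ∀ x ∈ C, g * x * g⁻¹ ∈ C) {m D : ℕ} (F : SimpleGraph (Fin m))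
    (φ : Fin m → Finset (Fin D)) (hφ : Function.Injective φ)
    (hφF : ∀ u v, F.Adj u v ↔ (symmDiff (φ u) (φ v)).card = 1)
    (hFG : ¬ F.IsIndContained (SimpleGraph.mulCayley C)) (ω K : ℕ)
    (hω : (SimpleGraph.mulCayley C).cliqueNum < ω) (hK : deg₀ m D ω ≤ K) :
    (SimpleGraph.mulCayley C).Colorable
      (N.index * K.factorial ^ (univ.filter (fun c => n c < K)).card) := by
  classical
  have : Fintype Γ := Fintype.ofFinite Γ
  set G := SimpleGraph.mulCayley C with hG
  have hGadj : ∀ x y, G.Adj x y ↔ x ≠ y ∧ (x⁻¹ * y ∈ C ∨ y⁻¹ * x ∈ C) := by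
    intro x y
    rw [hG, SimpleGraph.mulCayley_adj]
  let R' := {c : R // K ≤ n c}
  -- extension by `1` in the small coordinates
  let ext : Alt (fun c : R' => n c) →* Alt n :=
    { toFun := fun y c => if h : K ≤ n c then y ⟨c, h⟩ else 1
      map_one' := by
        funext c
        by_cases h : K ≤ n c <;> simp [h]
      map_mul' := by
        intro x y
        funext c
        by_cases h : K ≤ n c <;> simp [h] }
  have hext : ∀ y c (h : K ≤ n c), ext y c = y ⟨c, h⟩ := by
    intro y c h
    simp [ext, h]
  have hext' : ∀ y c, ¬ K ≤ n c → ext y c = 1 := by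
    intro y c h
    simp [ext, h]
  have hextinj : Function.Injective ext := by
    intro x y h
    funext ⟨c, hc⟩
    have := congrFun h c
    rwa [hext x c hc, hext y c hc] at this
  let j : Alt (fun c : R' => n c) →* Γ := N.subtype.comp (e.symm.toMonoidHom.comp ext)
  have hjinj : Function.Injective j :=
    N.subtype_injective.comp (e.symm.injective.comp hextinj)
  have hjN : ∀ y, j y ∈ N := fun y => (e.symm (ext y)).2
  let C' : Set (Alt (fun c : R' => n c)) := {y | j y ∈ C ∨ (j y)⁻¹ ∈ C}
  have hC' : ∀ x ∈ C', x = 1 := by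
    refine main_alt (C := C') ?_ ?_ F φ hφ hφF ω ?_ ?_ ?_
    · intro g x hx
      rcases hx with hx | hx
      · left
        rw [map_mul, map_mul, map_inv]
        exact hC _ (hjN g) _ hx
      · right
        rw [map_mul, map_mul, map_inv]
        have : (j g * j x * (j g)⁻¹)⁻¹ = j g * (j x)⁻¹ * (j g)⁻¹ := by group
        rw [this]
        exact hC _ (hjN g) _ hx
    · intro x hx
      rcases hx with hx | hx
      · right
        rw [map_inv, inv_inv]
        exact hx
      · left
        rw [map_inv]
        exact hx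
    · intro c
      exact hK.trans c.2
    · rintro ⟨f, hf1, hf2⟩
      apply hFG
      refine ⟨⟨⟨fun u => j (f u), hjinj.comp hf1⟩, ?_⟩⟩
      intro u v
      simp only [Function.Embedding.coeFn_mk]
      rw [hGadj]
      constructor
      · rintro ⟨h1, h2⟩
        have huv : u ≠ v := fun h => h1 (by rw [h])
        rw [hf2 u v huv]
        change j _ ∈ C ∨ (j _)⁻¹ ∈ C
        rw [map_mul, map_inv]
        rcases h2 with h2 | h2
        · exact Or.inl h2
        · right
          rw [mul_inv_rev, inv_inv]
          exact h2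
      · intro h1
        have huv : u ≠ v := h1.ne
        refine ⟨fun h => huv (hf1 (hjinj h)), ?_⟩
        have h2 := (hf2 u v huv).1 h1
        change j _ ∈ C ∨ (j _)⁻¹ ∈ C at h2
        rw [map_mul, map_inv] at h2
        rcases h2 with h2 | h2
        · exact Or.inl h2
        · right
          rwa [mul_inv_rev, inv_inv] at h2
    · rintro ⟨f, hf⟩
      have hadj : ∀ a b, a ≠ b → G.Adj (j (f a)) (j (f b)) := by
        intro a b hab
        rw [hGadj]
        refine ⟨fun h => (hf a b hab).1 (hjinj h), ?_⟩
        have h2 := (hf a b hab).2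
        change j _ ∈ C ∨ (j _)⁻¹ ∈ C at h2
        rw [map_mul, map_inv] at h2
        rcases h2 with h2 | h2
        · exact Or.inl h2
        · right
          rwa [mul_inv_rev, inv_inv] at h2
      have hinj : Function.Injective (fun a => j (f a)) := by
        intro a b hab
        by_contra hne
        exact (hadj a b hne).ne hab
      let S : Finset Γ := univ.map ⟨fun a => j (f a), hinj⟩
      have hcl : G.IsClique (S : Set Γ) := by
        intro x hx y hy hxy
        simp only [S, coe_map, Function.Embedding.coeFn_mk, coe_univ, Set.image_univ,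
          Set.mem_range] at hx hy
        obtain ⟨a, rfl⟩ := hx
        obtain ⟨b, rfl⟩ := hy
        exact hadj a b (fun h => hxy (by rw [h]))
      have hcard := hcl.card_le_cliqueNum
      simp only [S, card_map, card_univ, Fintype.card_fin] at hcard
      omega
  -- the colouring
  have hout : ∀ x : Γ, ((x : Γ ⧸ N).out)⁻¹ * x ∈ N := by
    intro x
    rw [← QuotientGroup.eq]
    exact Quotient.out_eq' _
  let ν : Γ → N := fun x => ⟨((x : Γ ⧸ N).out)⁻¹ * x, hout x⟩
  let col : Γ → (Γ ⧸ N) × (∀ c : {c : R // n c < K}, alternatingGroup (Fin (n c))) :=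
    fun x => ((x : Γ ⧸ N), fun c => e (ν x) c)
  have : Fintype (Γ ⧸ N) := Fintype.ofFinite _
  have hcol : ∀ x y, G.Adj x y → col x ≠ col y := by
    intro x y hxy h
    rw [hGadj] at hxy
    have h1 : (x : Γ ⧸ N) = (y : Γ ⧸ N) := congrArg Prod.fst h
    have h2 : ∀ c : {c : R // n c < K}, e (ν x) c = e (ν y) c := by
      intro c
      exact congrFun (congrArg Prod.snd h) c
    have h3 : x⁻¹ * y = (((ν x)⁻¹ * ν y : N) : Γ) := by
      simp only [ν, Subgroup.coe_mul, InvMemClass.coe_inv]
      rw [h1]
      group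
    let y₀ : Alt (fun c : R' => n c) := fun c => (e ((ν x)⁻¹ * ν y)) c
    have h4 : ext y₀ = e ((ν x)⁻¹ * ν y) := by
      funext c
      by_cases hc : K ≤ n c
      · rw [hext _ c hc]
      · rw [hext' _ c hc, map_mul, map_inv, Pi.mul_apply, Pi.inv_apply,
          h2 ⟨c, not_le.1 hc⟩, inv_mul_cancel]
    have h5 : j y₀ = x⁻¹ * y := by
      rw [h3]
      change ((e.symm (ext y₀) : N) : Γ) = _
      rw [h4, MulEquiv.symm_apply_apply]
    have h6 : y₀ ∈ C' := by
      change j _ ∈ C ∨ (j _)⁻¹ ∈ C
      rw [h5]
      rcases hxy.2 with h | h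
      · exact Or.inl h
      · right
        rw [mul_inv_rev, inv_inv]
        exact h
    have h7 := hC' _ h6
    rw [h7, map_one] at h5
    exact hxy.1 (inv_mul_eq_one.1 h5.symm)
  let coloring : G.Coloring ((Γ ⧸ N) × (∀ c : {c : R // n c < K}, alternatingGroup (Fin (n c)))) :=
    SimpleGraph.Coloring.mk col (fun {x y} h => hcol x y h)
  refine coloring.colorable.mono ?_
  rw [Fintype.card_prod, ← Nat.card_eq_fintype_card (α := Γ ⧸ N)]
  apply Nat.mul_le_mul_left
  rw [Fintype.card_pi]
  calc ∏ c : {c : R // n c < K}, Fintype.card (alternatingGroup (Fin (n c)))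
      ≤ ∏ _c : {c : R // n c < K}, K.factorial := by
        apply Finset.prod_le_prod'
        intro c _
        calc Fintype.card (alternatingGroup (Fin (n c))) ≤ Fintype.card (Perm (Fin (n c))) :=
              Fintype.card_subtype_le _
          _ = (n c).factorial := by rw [Fintype.card_perm, Fintype.card_fin]
          _ ≤ K.factorial := Nat.factorial_le c.2.le
    _ = K.factorial ^ (univ.filter (fun c => n c < K)).card := by
        rw [Finset.prod_const, card_univ, Fintype.card_subtype]

end Pool.Agent.H18.SN
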